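import Pool.Agent.H60NL.Guess

set_option autoImplicit false

/-!
# A machine which asks a padded question

On input `x` of length `n` the machine writes a fixed string `P`, the input `x` (every bit preceded
by a `true`), a `false` and `B ^ (log₂ (n + 1) + 1)` times `true`, and asks for this string. It
counts in base two and in base `B` on its work tape.
-/

namespace Pool.Agent.H60NL

/-- states of the counting machine -/
inductive KQ (m : ℕ) : Type
  | pre (i : Fin (m + 1))
  | inc (ph : Bool)
  | back (ph : Bool)
  | ini | scan | scanB | rst | q | y | n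

/-- the number of a state -/
def KQ.code {m : ℕ} : KQ m → Fin (m + 1) ⊕ Bool ⊕ Bool ⊕ Fin 7
  | .pre i => .inl i
  | .inc b => .inr (.inl b)
  | .back b => .inr (.inr (.inl b))
  | .ini => .inr (.inr (.inr 0))
  | .scan => .inr (.inr (.inr 1))
  | .scanB => .inr (.inr (.inr 2))
  | .rst => .inr (.inr (.inr 3))
  | .q => .inr (.inr (.inr 4))
  | .y => .inr (.inr (.inr 5))
  | .n => .inr (.inr (.inr 6))

instance (m : ℕ) : Finite (KQ m) := by
  refine Finite.of_injective KQ.code ?_
  intro a b h
  cases a <;> cases b <;> simp_all [KQ.code]

variable (P : List Bool) (B : ℕ) [NeZero B]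

/-- an action with one work tape -/
def act {Q Γ : Type} (s : Q) (di : Dir) (g : Γ) (dw : Dir) (out : Option Bool) : Act Q Γ 1 :=
  ⟨s, di, fun _ => g, fun _ => dw, out⟩

/-- the transitions of the counting machine -/
def kdel : KQ P.length → InSym → Option (Fin B) → Option (Act (KQ P.length) (Option (Fin B)) 1)
  | .pre i, _, g => if h : i.val < P.length then
      some (act (.pre ⟨i.val + 1, by omega⟩) .stay g .stay (some P[i.val]))
    else some (act .ini .stay g .stay none)
  | .ini, _, _ => some (act .scan .right (some 1) .stay none)
  | .scan, .bit _, g => some (act .scanB .stay g .stay (some true))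
  | .scan, _, g => some (act .rst .stay g .stay (some false))
  | .scanB, .bit b, g => some (act (.inc false) .right g .stay (some b))
  | .scanB, _, _ => none
  | .inc false, _, none => some (act (.back false) .stay (some 1) .stay none)
  | .inc false, _, some d => if d.val = 1 then some (act (.inc false) .stay (some 0) .right none)
    else some (act (.back false) .stay (some 1) .stay none)
  | .inc true, _, none => some (act .q .stay none .stay none)
  | .inc true, _, some d => if d.val + 1 = B then
      some (act (.inc true) .stay (some 0) .right none)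
    else some (act (.back true) .stay (some (Fin.ofNat B (d.val + 1))) .stay none)
  | .back ph, _, some d => some (act (.back ph) .stay (some d) .left none)
  | .back false, _, none => some (act .scan .stay none .right none)
  | .back true, _, none => some (act (.inc true) .stay none .right (some true))
  | .rst, _, some _ => some (act .rst .stay (some 0) .right none)
  | .rst, _, none => some (act (.back true) .stay none .left none)
  | .q, _, _ => none
  | .y, _, _ => none
  | .n, _, _ => none

/-- the counting machine -/
def cnt : NOTM where
  Q := KQ P.length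
  finQ := inferInstance
  Γ := Option (Fin B)
  finΓ := inferInstance
  k := 1
  blank := none
  start := .pre 0
  acc := .y
  query := .q
  yes := .y
  no := .n
  δ := fun s i w => {a | kdel P B s i (w 0) = some a}

/-- the tape with the digits `ds` at the cells `0, 1, …` -/
def tp {B : ℕ} (ds : List (Fin B)) : ℤ → Option (Fin B) := fun i =>
  if 0 ≤ i then ds[i.toNat]? else none

section tp

variable {B : ℕ} (pre rest : List (Fin B)) (d g : Fin B)

theorem tp_at : tp (pre ++ d :: rest) (pre.length : ℤ) = some d := by
  simp [tp]

theorem tp_end : tp pre (pre.length : ℤ) = none := by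
  simp [tp]

theorem tp_neg : tp pre (-1) = none := by
  simp [tp]

theorem tp_lt {j : ℕ} (h : j < pre.length) : tp pre (j : ℤ) = some pre[j] := by
  simp [tp, h]

theorem tp_set : Function.update (tp (pre ++ d :: rest)) (pre.length : ℤ) (some g) =
    tp (pre ++ g :: rest) := by
  funext i
  by_cases hi : i = (pre.length : ℤ)
  · subst hi
    rw [Function.update_self, tp_at]
  · rw [Function.update_of_ne hi]
    unfold tp
    split_ifs with h0
    · obtain ⟨j, rfl⟩ := Int.eq_ofNat_of_zero_le h0
      have hj : j ≠ pre.length := by
        rintro rfl
        exact hi rfl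
      simp only [Int.toNat_natCast]
      rcases lt_or_gt_of_ne hj with h | h
      · rw [List.getElem?_append_left h, List.getElem?_append_left h]
      · rw [List.getElem?_append_right h.le, List.getElem?_append_right h.le]
        obtain ⟨k, hk⟩ : ∃ k, j - pre.length = k + 1 := ⟨j - pre.length - 1, by omega⟩
        rw [hk]
        simp
    · rfl

theorem tp_snoc : Function.update (tp pre) (pre.length : ℤ) (some g) = tp (pre ++ [g]) := by
  funext i
  by_cases hi : i = (pre.length : ℤ)
  · subst hi
    rw [Function.update_self, tp_at]
  · rw [Function.update_of_ne hi]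
    unfold tp
    split_ifs with h0
    · obtain ⟨j, rfl⟩ := Int.eq_ofNat_of_zero_le h0
      have hj : j ≠ pre.length := by
        rintro rfl
        exact hi rfl
      simp only [Int.toNat_natCast]
      rcases lt_or_gt_of_ne hj with h | h
      · rw [List.getElem?_append_left h]
      · rw [List.getElem?_append_right h.le]
        obtain ⟨k, hk⟩ : ∃ k, j - pre.length = k + 1 := ⟨j - pre.length - 1, by omega⟩
        rw [hk, List.getElem?_eq_none (by omega)]
        simp
    · rfl

end tp

/-- a configuration of the counting machine -/
def kc0 (s : KQ P.length) (p : ℕ) (t : ℤ → Option (Fin B)) (j : ℤ) (o : List Bool) :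
    Cfg (cnt P B) := ⟨s, p, fun _ => t, fun _ => j, o⟩

/-- a configuration of the counting machine -/
def kc (s : KQ P.length) (p : ℕ) (ds : List (Fin B)) (j : ℤ) (o : List Bool) : Cfg (cnt P B) :=
  kc0 P B s p (tp ds) j o

variable (A : List Bool → Bool) (x : List Bool)

/-- one step -/
theorem kstep {s : KQ P.length} {p : ℕ} {ds ds' : List (Fin B)} {j : ℤ} {o : List Bool}
    (s' : KQ P.length) (di : Dir) (g : Option (Fin B)) (dw : Dir) (out : Option Bool)
    (hs : s ≠ .q) (h : kdel P B s (inSym x p) (tp ds j) = some (act s' di g dw out))
    (hds : Function.update (tp ds) j g = tp ds') (c' : Cfg (cnt P B)) :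
    (cnt P B).Step A x (kc P B s p ds j o) c' ↔
      c' = kc P B s' (movePos x.length di p) ds' (j + dw.toInt) (o ++ out.toList) := by
  unfold kc
  rw [← hds]
  constructor
  · rintro (⟨h1, _⟩ | ⟨_, a, ha, rfl⟩)
    · exact absurd h1 hs
    · have ha' : kdel P B s (inSym x p) (tp ds j) = some a := ha
      have h2 : act s' di g dw out = a := Option.some.inj (h.symm.trans ha')
      subst h2
      rfl
  · rintro rfl
    exact Or.inr ⟨hs, act s' di g dw out, h, rfl⟩

/-- the configurations of the run -/
def Good (S : ℕ) (c : Cfg (cnt P B)) : Prop :=
  c.state ≠ KQ.y ∧ ∀ i, |c.head i| ≤ (S : ℤ)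

theorem good_kc {S : ℕ} {s : KQ P.length} {p : ℕ} {ds : List (Fin B)} {j : ℤ} {o : List Bool}
    (hs : s ≠ .y) (hj : |j| ≤ (S : ℤ)) : Good P B S (kc P B s p ds j o) :=
  ⟨hs, fun _ => hj⟩

end Pool.Agent.H60NL
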