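import Pool.Agent.H60NL.Count

set_option autoImplicit false

/-!
# The run of the counting machine
-/

namespace Pool.Agent.H60NL

variable (P : List Bool) (B : ℕ) [NeZero B] (A : List Bool → Bool) (x : List Bool)

/-- runs of the counting machine with the heads within distance `S` -/
abbrev RR (S : ℕ) : Cfg (cnt P B) → Cfg (cnt P B) → Prop := Run (cnt P B) A x (Good P B S)

variable {P B A x} {S : ℕ}

theorem rstep {s : KQ P.length} {p : ℕ} {ds ds' : List (Fin B)} {j : ℤ} {o : List Bool}
    (s' : KQ P.length) (di : Dir) (g : Option (Fin B)) (dw : Dir) (out : Option Bool)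
    (hs : s ≠ .q) (h : kdel P B s (inSym x p) (tp ds j) = some (act s' di g dw out))
    (hds : Function.update (tp ds) j g = tp ds') (h1 : s ≠ .y) (h2 : s' ≠ .y)
    (hj : |j| ≤ (S : ℤ)) (hj' : |j + dw.toInt| ≤ (S : ℤ)) :
    RR P B A x S (kc P B s p ds j o)
      (kc P B s' (movePos x.length di p) ds' (j + dw.toInt) (o ++ out.toList)) :=
  Run.one (good_kc P B h1 hj) (good_kc P B h2 hj') (kstep P B A x s' di g dw out hs h hds)

theorem upd_same {B : ℕ} (ds : List (Fin B)) (j : ℤ) {g : Option (Fin B)} (h : tp ds j = g) :
    Function.update (tp ds) j g = tp ds := by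
  subst h
  exact Function.update_eq_self _ _

theorem r_back (ph : Bool) (p : ℕ) (ds : List (Fin B)) (o : List Bool) (hS : ds.length ≤ S)
    (hS1 : 1 ≤ S) : ∀ j : ℕ, j ≤ ds.length →
    RR P B A x S (kc P B (.back ph) p ds ((j : ℤ) - 1) o) (kc P B (.back ph) p ds (-1) o) := by
  intro j
  induction j with
  | zero =>
    intro _
    refine Run.refl _ (good_kc P B (by simp) ?_)
    simpa using hS1
  | succ j ih =>
    intro hj
    have h1 : tp ds (j : ℤ) = some ds[j] := tp_lt ds (by omega)
    have e : ((j + 1 : ℕ) : ℤ) - 1 = (j : ℤ) := by push_cast; ring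
    rw [e]
    have h2 := rstep (P := P) (A := A) (x := x) (S := S) (s := .back ph) (p := p) (ds := ds)
      (ds' := ds) (j := (j : ℤ)) (o := o) (.back ph) .stay (some ds[j]) .left none (by simp)
      (by rw [h1]; cases ph <;> rfl) (upd_same ds j h1) (by simp) (by simp)
      (by rw [abs_of_nonneg (by positivity)]; omega)
      (by simp only [Dir.toInt]; rw [abs_le]; omega)
    have h3 := h2.trans (by simpa [Dir.toInt, movePos, sub_eq_add_neg] using ih (by omega))
    exact h3

/-- increments in base two -/
def incr1 : List (Fin B) → List (Fin B)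
  | [] => [1]
  | d :: ds => if d.val = 1 then 0 :: incr1 ds else 1 :: ds

theorem r_inc1 (p : ℕ) (o : List Bool) : ∀ (ds pre : List (Fin B)), pre.length + ds.length ≤ S →
    ∃ j : ℕ, j < (pre ++ incr1 ds).length ∧
      RR P B A x S (kc P B (.inc false) p (pre ++ ds) pre.length o)
        (kc P B (.back false) p (pre ++ incr1 ds) j o) := by
  intro ds
  induction ds with
  | nil =>
    intro pre h
    refine ⟨pre.length, by simp [incr1], ?_⟩
    have h1 : tp pre (pre.length : ℤ) = none := tp_end pre
    have h2 := rstep (P := P) (A := A) (x := x) (S := S) (s := .inc false) (p := p) (ds := pre)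
      (ds' := pre ++ [1]) (j := (pre.length : ℤ)) (o := o) (.back false) .stay (some 1) .stay none
      (by simp) (by rw [h1]; rfl) (tp_snoc pre 1) (by simp) (by simp)
      (by rw [abs_of_nonneg (by positivity)]; simp at h; omega)
      (by simp only [Dir.toInt, add_zero]; rw [abs_of_nonneg (by positivity)]; simp at h; omega)
    simpa [Dir.toInt, movePos, incr1] using h2
  | cons d ds ih =>
    intro pre h
    rw [List.length_cons] at h
    have h1 : tp (pre ++ d :: ds) (pre.length : ℤ) = some d := tp_at pre ds d
    by_cases hd : d.val = 1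
    · obtain ⟨j, hj, hr⟩ := ih (pre ++ [0]) (by simp; omega)
      have h2 := rstep (P := P) (A := A) (x := x) (S := S) (s := .inc false) (p := p)
        (ds := pre ++ d :: ds) (ds' := pre ++ 0 :: ds) (j := (pre.length : ℤ)) (o := o)
        (.inc false) .stay (some 0) .right none (by simp) (by rw [h1]; simp [kdel, hd])
        (tp_set pre ds d 0) (by simp) (by simp)
        (by rw [abs_of_nonneg (by positivity)]; omega)
        (by simp only [Dir.toInt]; rw [abs_of_nonneg (by positivity)]; omega)
      refine ⟨j, ?_, h2.trans ?_⟩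
      · simpa [incr1, hd] using hj
      · simpa [Dir.toInt, movePos, incr1, hd] using hr
    · have h2 := rstep (P := P) (A := A) (x := x) (S := S) (s := .inc false) (p := p)
        (ds := pre ++ d :: ds) (ds' := pre ++ 1 :: ds) (j := (pre.length : ℤ)) (o := o)
        (.back false) .stay (some 1) .stay none (by simp) (by rw [h1]; simp [kdel, hd])
        (tp_set pre ds d 1) (by simp) (by simp)
        (by rw [abs_of_nonneg (by positivity)]; omega)
        (by simp only [Dir.toInt, add_zero]; rw [abs_of_nonneg (by positivity)]; omega)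
      refine ⟨pre.length, by simp [incr1, hd], ?_⟩
      simpa [Dir.toInt, movePos, incr1, hd] using h2

/-- binary digits -/
def bd (B : ℕ) [NeZero B] (v : ℕ) : List (Fin B) := (Nat.digits 2 v).map (Fin.ofNat B)

theorem incr1_bd (hB : 2 ≤ B) (v : ℕ) : incr1 (bd B v) = bd B (v + 1) := by
  induction v using Nat.strong_induction_on with
  | _ v ih =>
    rcases Nat.eq_zero_or_pos v with rfl | hv
    · unfold bd
      have h0 : Nat.digits 2 (0 + 1) = [1] := by norm_num
      rw [Nat.digits_zero, h0]
      rfl
    · have h1 : Nat.digits 2 v = v % 2 :: Nat.digits 2 (v / 2) :=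
        Nat.digits_def' (by norm_num) hv
      have h2 : Nat.digits 2 (v + 1) = (v + 1) % 2 :: Nat.digits 2 ((v + 1) / 2) :=
        Nat.digits_def' (by norm_num) (by omega)
      have h3 : ((Fin.ofNat B (v % 2)).val = 1) ↔ v % 2 = 1 := by
        rw [Fin.val_ofNat, Nat.mod_eq_of_lt (by omega : v % 2 < B)]
      unfold bd at ih ⊢
      rw [h1, h2]
      simp only [List.map_cons, incr1, h3]
      rcases Nat.mod_two_eq_zero_or_one v with h0 | h0
      · have h4 : (v + 1) % 2 = 1 := by omega
        have h5 : (v + 1) / 2 = v / 2 := by omega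
        rw [if_neg (by omega), h4, h5]
        rfl
      · have h4 : (v + 1) % 2 = 0 := by omega
        have h5 : (v + 1) / 2 = v / 2 + 1 := by omega
        rw [if_pos h0, h4, h5, ih (v / 2) (by omega)]
        rfl

theorem bd_len (v : ℕ) (hv : v ≠ 0) : (bd B v).length = Nat.log 2 v + 1 := by
  unfold bd
  rw [List.length_map, Nat.length_digits 2 v (by norm_num) hv]

theorem r_scan (hB : 2 ≤ B) (hS : ∀ v ≤ x.length + 1, (bd B v).length ≤ S) (hS1 : 1 ≤ S) :
    ∀ (rest : List Bool) (i v : ℕ) (o : List Bool), x.drop i = rest → v = i + 1 → i ≤ x.length →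
    RR P B A x S (kc P B .scan (i + 1) (bd B v) 0 o)
      (kc P B .rst (x.length + 1) (bd B (x.length + 1)) 0
        (o ++ rest.flatMap (fun b => [true, b]) ++ [false])) := by
  intro rest
  induction rest with
  | nil =>
    intro i v o hx hv hi
    have hi' : i = x.length := by
      have := congrArg List.length hx
      simp at this
      omega
    subst hi'
    subst hv
    have h2 := rstep (P := P) (A := A) (x := x) (S := S) (s := .scan) (p := x.length + 1)
      (ds := bd B (x.length + 1)) (ds' := bd B (x.length + 1)) (j := 0) (o := o)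
      .rst .stay (tp (bd B (x.length + 1)) 0) .stay (some false) (by simp)
      (by rw [inSym_right]; rfl) (upd_same _ _ rfl) (by simp) (by simp) (by simp)
      (by simp [Dir.toInt])
    simpa [Dir.toInt, movePos] using h2
  | cons b rest ih =>
    intro i v o hx hv hi
    subst hv
    have hi' : i < x.length := by
      have := congrArg List.length hx
      simp at this
      omega
    have hb : x[i] = b := by
      have h1 : x.drop i = x[i] :: x.drop (i + 1) := List.drop_eq_getElem_cons hi'
      rw [h1] at hx
      exact (List.cons.inj hx).1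
    have hr : x.drop (i + 1) = rest := by
      have h1 : x.drop i = x[i] :: x.drop (i + 1) := List.drop_eq_getElem_cons hi'
      rw [h1] at hx
      exact (List.cons.inj hx).2
    have h1 := rstep (P := P) (A := A) (x := x) (S := S) (s := .scan) (p := i + 1)
      (ds := bd B (i + 1)) (ds' := bd B (i + 1)) (j := 0) (o := o)
      .scanB .stay (tp (bd B (i + 1)) 0) .stay (some true) (by simp)
      (by rw [inSym_bit hi']; rfl) (upd_same _ _ rfl) (by simp) (by simp) (by simp)
      (by simp [Dir.toInt])
    have h2 := rstep (P := P) (A := A) (x := x) (S := S) (s := .scanB) (p := i + 1)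
      (ds := bd B (i + 1)) (ds' := bd B (i + 1)) (j := 0) (o := o ++ [true])
      (.inc false) .right (tp (bd B (i + 1)) 0) .stay (some b) (by simp)
      (by rw [inSym_bit hi', hb]; rfl) (upd_same _ _ rfl) (by simp) (by simp) (by simp)
      (by simp [Dir.toInt])
    have e : min (i + 1 + 1) (x.length + 1) = i + 1 + 1 := by omega
    have h12 : RR P B A x S (kc P B .scan (i + 1) (bd B (i + 1)) 0 o)
        (kc P B (.inc false) (i + 1 + 1) (bd B (i + 1)) 0 (o ++ [true] ++ [b])) := by
      refine Run.trans (by simpa [Dir.toInt, movePos] using h1) ?_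
      simpa [Dir.toInt, movePos, e] using h2
    obtain ⟨j, hj, h3⟩ := r_inc1 (P := P) (A := A) (x := x) (S := S) (i + 1 + 1)
      (o ++ [true] ++ [b]) (bd B (i + 1)) [] (by simpa using hS _ (by omega))
    rw [List.nil_append, incr1_bd hB] at h3 hj
    rw [List.nil_append] at h3
    have h4 := r_back (P := P) (A := A) (x := x) (S := S) false (i + 1 + 1) (bd B (i + 1 + 1))
      (o ++ [true] ++ [b]) (hS _ (by omega)) hS1 (j + 1) hj
    have e2 : ((j + 1 : ℕ) : ℤ) - 1 = (j : ℤ) := by push_cast; ring
    rw [e2] at h4
    have h5 := rstep (P := P) (A := A) (x := x) (S := S) (s := .back false) (p := i + 1 + 1)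
      (ds := bd B (i + 1 + 1)) (ds' := bd B (i + 1 + 1)) (j := -1) (o := o ++ [true] ++ [b])
      .scan .stay none .right none (by simp) (by rw [tp_neg]; rfl)
      (upd_same _ _ (tp_neg _)) (by simp) (by simp) (by simpa using hS1)
      (by simp [Dir.toInt])
    have h6 := ih (i + 1) (i + 1 + 1) (o ++ [true] ++ [b]) hr rfl (by omega)
    refine h12.trans (Run.trans (by simpa using h3) (h4.trans (Run.trans (by
      simpa [Dir.toInt, movePos] using h5) ?_)))
    simpa using h6

end Pool.Agent.H60NL
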