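import Pool.Agent.H60NL.Count2

set_option autoImplicit false

/-!
# The run of the counting machine: the second phase
-/

namespace Pool.Agent.H60NL

variable {P : List Bool} {B : ℕ} [NeZero B] {A : List Bool → Bool} {x : List Bool} {S : ℕ}

theorem r_rst (p : ℕ) (o : List Bool) : ∀ (ds : List (Fin B)) (m : ℕ), m + ds.length ≤ S →
    RR P B A x S (kc P B .rst p (List.replicate m 0 ++ ds) (m : ℤ) o)
      (kc P B .rst p (List.replicate (m + ds.length) 0) ((m + ds.length : ℕ) : ℤ) o) := by
  intro ds
  induction ds with
  | nil =>
    intro m h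
    rw [List.length_nil, add_zero] at *
    rw [List.append_nil]
    exact Run.refl _ (good_kc P B (by simp) (by rw [abs_of_nonneg (by positivity)]; omega))
  | cons d ds ih =>
    intro m h
    rw [List.length_cons] at h
    have hm : (List.replicate m (0 : Fin B)).length = m := List.length_replicate
    have h1 : tp (List.replicate m (0 : Fin B) ++ d :: ds) (m : ℤ) = some d := by
      have := tp_at (List.replicate m (0 : Fin B)) ds d
      rwa [hm] at this
    have h3 : Function.update (tp (List.replicate m (0 : Fin B) ++ d :: ds)) (m : ℤ) (some 0) =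
        tp (List.replicate m (0 : Fin B) ++ 0 :: ds) := by
      have := tp_set (List.replicate m (0 : Fin B)) ds d 0
      rwa [hm] at this
    have h2 := rstep (P := P) (A := A) (x := x) (S := S) (s := .rst) (p := p)
      (ds := List.replicate m 0 ++ d :: ds) (ds' := List.replicate m 0 ++ 0 :: ds) (j := (m : ℤ))
      (o := o) .rst .stay (some 0) .right none (by simp) (by rw [h1]; rfl) h3 (by simp) (by simp)
      (by rw [abs_of_nonneg (by positivity)]; omega)
      (by simp only [Dir.toInt]; rw [abs_of_nonneg (by positivity)]; omega)
    have e1 : List.replicate m (0 : Fin B) ++ 0 :: ds = List.replicate (m + 1) 0 ++ ds := by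
      rw [List.replicate_succ']
      simp
    have h4 := ih (m + 1) (by omega)
    have e2 : m + 1 + ds.length = m + (d :: ds).length := by simp; omega
    rw [e2] at h4
    refine Run.trans (by simpa [Dir.toInt, movePos] using h2) ?_
    rw [e1]
    simpa using h4

/-- increments in base `B` -/
def incr2 : List (Fin B) → Option (List (Fin B))
  | [] => none
  | d :: ds => if d.val + 1 = B then (incr2 ds).map (fun l => 0 :: l)
    else some (Fin.ofNat B (d.val + 1) :: ds)

/-- the number with digits `ds` -/
def val (ds : List (Fin B)) : ℕ := Nat.ofDigits B (ds.map Fin.val)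

theorem incr2_some : ∀ (ds ds' : List (Fin B)), incr2 ds = some ds' →
    ds'.length = ds.length ∧ val ds' = val ds + 1
  | [], _, h => by simp [incr2] at h
  | d :: ds, ds', h => by
    unfold incr2 at h
    split_ifs at h with hd
    · rw [Option.map_eq_some_iff] at h
      obtain ⟨l, hl, rfl⟩ := h
      obtain ⟨h1, h2⟩ := incr2_some ds l hl
      refine ⟨by simp [h1], ?_⟩
      unfold val at h2 ⊢
      simp only [List.map_cons, Nat.ofDigits_cons, h2]
      have : ((0 : Fin B) : ℕ) = 0 := rfl
      rw [this]
      nlinarith
    · obtain rfl := Option.some.inj h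
      refine ⟨by simp, ?_⟩
      unfold val
      simp only [List.map_cons, Nat.ofDigits_cons]
      have h1 : (Fin.ofNat B (d.val + 1)).val = d.val + 1 := by
        rw [Fin.val_ofNat, Nat.mod_eq_of_lt (by have := d.2; omega)]
      rw [h1]
      ring

theorem incr2_none : ∀ (ds : List (Fin B)), incr2 ds = none → val ds + 1 = B ^ ds.length
  | [], _ => by simp [val]
  | d :: ds, h => by
    unfold incr2 at h
    split_ifs at h with hd
    rw [Option.map_eq_none_iff] at h
    have h1 := incr2_none ds h
    unfold val at h1 ⊢
    simp only [List.map_cons, Nat.ofDigits_cons, List.length_cons, pow_succ, ← h1]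
    have h2 : (d : ℕ) + 1 = B := hd
    nlinarith

theorem r_inc2_some (p : ℕ) (o : List Bool) : ∀ (ds pre ds' : List (Fin B)), incr2 ds = some ds' →
    pre.length + ds.length ≤ S → ∃ j : ℕ, j < pre.length + ds.length ∧
      RR P B A x S (kc P B (.inc true) p (pre ++ ds) pre.length o)
        (kc P B (.back true) p (pre ++ ds') j o) := by
  intro ds
  induction ds with
  | nil => intro pre ds' h; simp [incr2] at h
  | cons d ds ih =>
    intro pre ds' h hS
    rw [List.length_cons] at hS
    have h1 : tp (pre ++ d :: ds) (pre.length : ℤ) = some d := tp_at pre ds d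
    unfold incr2 at h
    split_ifs at h with hd
    · rw [Option.map_eq_some_iff] at h
      obtain ⟨l, hl, rfl⟩ := h
      obtain ⟨j, hj, hr⟩ := ih (pre ++ [0]) l hl (by simp; omega)
      have h2 := rstep (P := P) (A := A) (x := x) (S := S) (s := .inc true) (p := p)
        (ds := pre ++ d :: ds) (ds' := pre ++ 0 :: ds) (j := (pre.length : ℤ)) (o := o)
        (.inc true) .stay (some 0) .right none (by simp) (by rw [h1]; simp [kdel, hd])
        (tp_set pre ds d 0) (by simp) (by simp)
        (by rw [abs_of_nonneg (by positivity)]; omega)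
        (by simp only [Dir.toInt]; rw [abs_of_nonneg (by positivity)]; omega)
      refine ⟨j, by simp at hj ⊢; omega, h2.trans ?_⟩
      simpa [Dir.toInt, movePos] using hr
    · obtain rfl := Option.some.inj h
      have h2 := rstep (P := P) (A := A) (x := x) (S := S) (s := .inc true) (p := p)
        (ds := pre ++ d :: ds) (ds' := pre ++ Fin.ofNat B (d.val + 1) :: ds)
        (j := (pre.length : ℤ)) (o := o)
        (.back true) .stay (some (Fin.ofNat B (d.val + 1))) .stay none (by simp)
        (by rw [h1]; simp only [kdel]; rw [if_neg hd])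
        (tp_set pre ds d _) (by simp) (by simp)
        (by rw [abs_of_nonneg (by positivity)]; omega)
        (by simp only [Dir.toInt, add_zero]; rw [abs_of_nonneg (by positivity)]; omega)
      refine ⟨pre.length, by simp, ?_⟩
      have e : o ++ (none : Option Bool).toList = o := by simp
      have e3 : (pre.length : ℤ) + Dir.stay.toInt = pre.length := by simp [Dir.toInt]
      rw [e, e3] at h2
      exact h2

theorem r_inc2_none (p : ℕ) (o : List Bool) : ∀ (ds pre : List (Fin B)), incr2 ds = none →
    pre.length + ds.length ≤ S → ∃ (ds' : List (Fin B)) (j : ℤ),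
      RR P B A x S (kc P B (.inc true) p (pre ++ ds) pre.length o) (kc P B .q p ds' j o) := by
  intro ds
  induction ds with
  | nil =>
    intro pre _ hS
    have h1 : tp pre (pre.length : ℤ) = none := tp_end pre
    have h2 := rstep (P := P) (A := A) (x := x) (S := S) (s := .inc true) (p := p)
      (ds := pre) (ds' := pre) (j := (pre.length : ℤ)) (o := o)
      .q .stay none .stay none (by simp) (by rw [h1]; rfl)
      (upd_same _ _ h1) (by simp) (by simp)
      (by rw [abs_of_nonneg (by positivity)]; simp at hS; omega)
      (by simp only [Dir.toInt, add_zero]; rw [abs_of_nonneg (by positivity)]; simp at hS; omega)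
    refine ⟨pre, pre.length, ?_⟩
    simpa [Dir.toInt, movePos] using h2
  | cons d ds ih =>
    intro pre h hS
    rw [List.length_cons] at hS
    have h1 : tp (pre ++ d :: ds) (pre.length : ℤ) = some d := tp_at pre ds d
    unfold incr2 at h
    split_ifs at h with hd
    rw [Option.map_eq_none_iff] at h
    obtain ⟨ds', j, hr⟩ := ih (pre ++ [0]) h (by simp; omega)
    have h2 := rstep (P := P) (A := A) (x := x) (S := S) (s := .inc true) (p := p)
      (ds := pre ++ d :: ds) (ds' := pre ++ 0 :: ds) (j := (pre.length : ℤ)) (o := o)
      (.inc true) .stay (some 0) .right none (by simp) (by rw [h1]; simp [kdel, hd])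
      (tp_set pre ds d 0) (by simp) (by simp)
      (by rw [abs_of_nonneg (by positivity)]; omega)
      (by simp only [Dir.toInt]; rw [abs_of_nonneg (by positivity)]; omega)
    refine ⟨ds', j, h2.trans ?_⟩
    simpa [Dir.toInt, movePos] using hr

/-- from the state `back true` on digits `ds` to the next increment -/
theorem r_next (p : ℕ) (ds : List (Fin B)) (o : List Bool) (hS : ds.length ≤ S) (hS1 : 1 ≤ S)
    (j : ℕ) (hj : j ≤ ds.length) :
    RR P B A x S (kc P B (.back true) p ds ((j : ℤ) - 1) o)
      (kc P B (.inc true) p ds 0 (o ++ [true])) := by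
  refine (r_back true p ds o hS hS1 j hj).trans ?_
  have h5 := rstep (P := P) (A := A) (x := x) (S := S) (s := .back true) (p := p)
    (ds := ds) (ds' := ds) (j := -1) (o := o)
    (.inc true) .stay none .right (some true) (by simp) (by rw [tp_neg]; rfl)
    (upd_same _ _ (tp_neg _)) (by simp) (by simp) (by simpa using hS1)
    (by simp [Dir.toInt])
  simpa [Dir.toInt, movePos] using h5

theorem r_loop (p : ℕ) (hS1 : 1 ≤ S) : ∀ (r : ℕ) (ds : List (Fin B)) (o : List Bool),
    val ds + r + 1 = B ^ ds.length → ds.length ≤ S → ∃ (ds' : List (Fin B)) (j : ℤ),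
      RR P B A x S (kc P B (.inc true) p ds 0 o)
        (kc P B .q p ds' j (o ++ List.replicate r true)) := by
  intro r
  induction r with
  | zero =>
    intro ds o hv hS
    cases h : incr2 ds with
    | none =>
      obtain ⟨ds', j, hr⟩ := r_inc2_none (P := P) (A := A) (x := x) (S := S) p o ds [] h
        (by simpa using hS)
      exact ⟨ds', j, by simpa using hr⟩
    | some ds'' =>
      exfalso
      obtain ⟨h1, h2⟩ := incr2_some ds ds'' h
      have h3 : val ds'' < B ^ ds''.length := by
        unfold val
        have := Nat.ofDigits_lt_base_pow_length' (b := B - 2) (l := ds''.map Fin.val)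
        rcases Nat.lt_or_ge B 2 with hB | hB
        · have hB1 : B = 1 := by have := NeZero.ne B; omega
          subst hB1
          have : ∀ l : List (Fin 1), Nat.ofDigits 1 (l.map Fin.val) = 0 := by
            intro l
            induction l with
            | nil => simp
            | cons a l ih => simp [ih]
          rw [this]
          simp
        · obtain ⟨b, rfl⟩ : ∃ b, B = b + 2 := ⟨B - 2, by omega⟩
          have h4 := Nat.ofDigits_lt_base_pow_length' (b := b) (l := ds''.map Fin.val) (by
            intro y hy
            obtain ⟨z, _, rfl⟩ := List.mem_map.1 hy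
            exact z.2)
          rwa [List.length_map] at h4
      rw [h1, h2] at h3
      omega
  | succ r ih =>
    intro ds o hv hS
    cases h : incr2 ds with
    | none =>
      exfalso
      have := incr2_none ds h
      omega
    | some ds1 =>
      obtain ⟨h1, h2⟩ := incr2_some ds ds1 h
      obtain ⟨j, hj, hr⟩ := r_inc2_some (P := P) (A := A) (x := x) (S := S) p o ds [] ds1 h
        (by simpa using hS)
      obtain ⟨ds', j', hr'⟩ := ih ds1 (o ++ [true]) (by rw [h1, h2]; omega) (by omega)
      refine ⟨ds', j', ?_⟩
      have h3 := r_next (P := P) (A := A) (x := x) p ds1 o (by omega : ds1.length ≤ S) hS1 (j + 1)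
        (by simp at hj; omega)
      have e2 : ((j + 1 : ℕ) : ℤ) - 1 = (j : ℤ) := by push_cast; ring
      rw [e2] at h3
      refine Run.trans (by simpa using hr) (h3.trans ?_)
      simpa [List.replicate_succ] using hr'

theorem r_pre : ∀ k i : ℕ, (h : i + k = P.length) →
    RR P B A x S (kc P B (.pre ⟨i, by omega⟩) 0 [] 0 (P.take i)) (kc P B .ini 0 [] 0 P) := by
  intro k
  induction k with
  | zero =>
    intro i h
    have hi : i = P.length := by omega
    subst hi
    have h2 := rstep (P := P) (A := A) (x := x) (S := S) (s := .pre ⟨P.length, by omega⟩) (p := 0)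
      (ds := []) (ds' := []) (j := 0) (o := P.take P.length)
      .ini .stay (tp ([] : List (Fin B)) 0) .stay none (by simp) (by simp [kdel])
      (upd_same _ _ rfl) (by simp) (by simp) (by simp) (by simp [Dir.toInt])
    simpa [Dir.toInt, movePos] using h2
  | succ k ih =>
    intro i h
    have hi : i < P.length := by omega
    have h2 := rstep (P := P) (A := A) (x := x) (S := S) (s := .pre ⟨i, by omega⟩) (p := 0)
      (ds := []) (ds' := []) (j := 0) (o := P.take i)
      (.pre ⟨i + 1, by omega⟩) .stay (tp ([] : List (Fin B)) 0) .stay (some P[i]) (by simp)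
      (by simp [kdel, hi])
      (upd_same _ _ rfl) (by simp) (by simp) (by simp) (by simp [Dir.toInt])
    have e : P.take i ++ [P[i]] = P.take (i + 1) := by
      rw [List.take_succ_eq_append_getElem hi]
    refine Run.trans (by simpa [Dir.toInt, movePos, e] using h2) (ih (i + 1) (by omega))

/-- the number of digits -/
def nd (n : ℕ) : ℕ := Nat.log 2 (n + 1) + 1

theorem cnt_run (hB : 2 ≤ B) : ∃ (ds : List (Fin B)) (j : ℤ),
    RR P B A x (nd x.length + 1) (cnt P B).init (kc P B .q (x.length + 1) ds j
      (P ++ x.flatMap (fun b => [true, b]) ++ false :: List.replicate (B ^ nd x.length) true)) := by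
  have hlen : (bd B (x.length + 1)).length = nd x.length := bd_len _ (by omega)
  have hS : ∀ v ≤ x.length + 1, (bd B v).length ≤ nd x.length + 1 := by
    intro v hv
    rcases Nat.eq_zero_or_pos v with rfl | h0
    · simp [bd]
    · rw [bd_len v (by omega)]
      unfold nd
      have := Nat.log_mono_right (b := 2) hv
      omega
  have hL : 1 ≤ nd x.length := by unfold nd; omega
  have h0 : (cnt P B).init = kc P B (.pre ⟨0, by omega⟩) 0 [] 0 (P.take 0) := by
    unfold kc kc0 NOTM.init
    congr 1
    funext i j
    simp [tp, cnt]
  have h1 := r_pre (P := P) (B := B) (A := A) (x := x) (S := nd x.length + 1)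
    P.length 0 (by omega)
  have h2 := rstep (P := P) (A := A) (x := x) (S := nd x.length + 1) (s := .ini) (p := 0)
    (ds := []) (ds' := bd B (0 + 1)) (j := 0) (o := P)
    .scan .right (some 1) .stay none (by simp) (by simp [kdel])
    (by
      have h3 := tp_snoc ([] : List (Fin B)) 1
      have h4 : bd B (0 + 1) = [] ++ [1] := by
        unfold bd
        have h0 : Nat.digits 2 (0 + 1) = [1] := by norm_num
        rw [h0]
        rfl
      rw [h4, ← h3]
      rfl) (by simp) (by simp) (by simp; positivity)
    (by simp [Dir.toInt]; positivity)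
  have h3 := r_scan (P := P) (A := A) (x := x) (S := nd x.length + 1) hB hS (by omega) x 0 1 P
    (by simp) (by simp) (by omega)
  obtain ⟨o, ho⟩ : ∃ o, o = P ++ x.flatMap (fun b => [true, b]) ++ [false] := ⟨_, rfl⟩
  rw [← ho] at h3
  have h4 := r_rst (P := P) (A := A) (x := x) (S := nd x.length + 1) (x.length + 1) o
    (bd B (x.length + 1)) 0 (by omega)
  rw [hlen, zero_add] at h4
  have hz : ∀ m : ℕ, tp (List.replicate m (0 : Fin B)) (m : ℤ) = none := by
    intro m
    have := tp_end (List.replicate m (0 : Fin B))
    rwa [List.length_replicate] at this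
  have h5 := rstep (P := P) (A := A) (x := x) (S := nd x.length + 1) (s := .rst)
    (p := x.length + 1) (ds := List.replicate (nd x.length) 0)
    (ds' := List.replicate (nd x.length) 0) (j := ((nd x.length : ℕ) : ℤ)) (o := o)
    (.back true) .stay none .left none (by simp) (by rw [hz]; rfl)
    (upd_same _ _ (hz _)) (by simp) (by simp)
    (by rw [abs_of_nonneg (by positivity)]; push_cast; omega)
    (by simp only [Dir.toInt]; rw [abs_le]; push_cast; omega)
  have h6 := r_next (P := P) (A := A) (x := x) (S := nd x.length + 1) (x.length + 1)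
    (List.replicate (nd x.length) (0 : Fin B)) o (by simp) (by omega) (nd x.length) (by simp)
  have hval : val (List.replicate (nd x.length) (0 : Fin B)) = 0 := by
    unfold val
    have : ∀ m : ℕ, Nat.ofDigits B ((List.replicate m (0 : Fin B)).map Fin.val) = 0 := by
      intro m
      induction m with
      | zero => simp
      | succ m ih =>
        rw [List.replicate_succ, List.map_cons, Nat.ofDigits_cons, ih]
        rfl
    exact this _
  have hpos : 0 < B ^ nd x.length := pow_pos (by omega) _
  obtain ⟨ds', j, h7⟩ := r_loop (P := P) (A := A) (x := x) (S := nd x.length + 1)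
    (x.length + 1) (by omega) (B ^ nd x.length - 1) (List.replicate (nd x.length) (0 : Fin B))
    (o ++ [true])
    (by rw [hval, List.length_replicate]; omega) (by simp)
  refine ⟨ds', j, ?_⟩
  rw [h0]
  have e1 : o ++ [true] ++ List.replicate (B ^ nd x.length - 1) true =
      P ++ x.flatMap (fun b => [true, b]) ++ false :: List.replicate (B ^ nd x.length) true := by
    rw [ho]
    obtain ⟨r, hr⟩ : ∃ r, B ^ nd x.length = r + 1 := ⟨B ^ nd x.length - 1, by omega⟩
    rw [hr, List.replicate_succ]
    simp
  rw [← e1]
  refine h1.trans (Run.trans (by simpa [Dir.toInt, movePos] using h2) (Run.trans h3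
    (Run.trans (by simpa using h4) (Run.trans ?_ (h6.trans h7)))))
  simpa [Dir.toInt, movePos, sub_eq_add_neg] using h5

/-- The language of the strings `x` for which the padded question has a positive answer. -/
theorem nl_cnt (P : List Bool) {B : ℕ} (hB : 2 ≤ B) (A : List Bool → Bool) :
    IsNLstar A {x | A (P ++ x.flatMap (fun b => [true, b]) ++
      false :: List.replicate (B ^ nd x.length) true) = true} := by
  have : NeZero B := ⟨by omega⟩
  have key : ∀ x : List Bool, ∃ (d e : Cfg (cnt P B)),
      RR P B A x (nd x.length + 1) (cnt P B).init d ∧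
      (∀ c', (cnt P B).Step A x d c' ↔ c' = e) ∧ (∀ c', ¬ (cnt P B).Step A x e c') ∧
      (∀ i, |e.head i| ≤ ((nd x.length + 1 : ℕ) : ℤ)) ∧
      (e.state = KQ.y ↔ A (P ++ x.flatMap (fun b => [true, b]) ++
        false :: List.replicate (B ^ nd x.length) true) = true) := by
    intro x
    obtain ⟨ds, j, hr⟩ := cnt_run (P := P) (B := B) (A := A) (x := x) hB
    obtain ⟨o, ho⟩ : ∃ o, o = P ++ x.flatMap (fun b => [true, b]) ++
      false :: List.replicate (B ^ nd x.length) true := ⟨_, rfl⟩
    rw [← ho] at hr ⊢
    have hgood : ∀ {c d : Cfg (cnt P B)}, RR P B A x (nd x.length + 1) c d →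
        Good P B (nd x.length + 1) d := by
      intro c d h
      induction h with
      | refl c h => exact h
      | head c d e _ _ _ ih => exact ih
    have hg := hgood hr
    refine ⟨_, kc P B (if A o = true then .y else .n) (x.length + 1) ds j [], hr, ?_, ?_, ?_, ?_⟩
    · intro c'
      constructor
      · rintro (⟨_, rfl⟩ | ⟨h1, _⟩)
        · rfl
        · exact absurd rfl h1
      · rintro rfl
        exact Or.inl ⟨rfl, rfl⟩
    · rintro c' (⟨h1, _⟩ | ⟨_, a, ha, _⟩)
      · have h1' : (if A o = true then KQ.y else KQ.n : KQ P.length) = KQ.q := h1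
        split_ifs at h1'
      · have ha' : kdel P B (if A o = true then KQ.y else KQ.n) (inSym x (x.length + 1))
            (tp ds j) = some a := ha
        split_ifs at ha' <;> simp [kdel] at ha'
    · intro i
      exact hg.2 i
    · change (if A o = true then KQ.y else KQ.n : KQ P.length) = KQ.y ↔ _
      split_ifs with h
      · simp [h]
      · simp [h]
  refine ⟨cnt P B, fun x => ?_, ⟨4, fun x c hc i => ?_⟩, fun x => ?_⟩
  · obtain ⟨d, e, h1, h2, h3, _⟩ := key x
    exact h1.halts h2 h3
  · obtain ⟨d, e, h1, h2, h3, h4, _⟩ := key x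
    have h5 : |c.head i| ≤ ((nd x.length + 1 : ℕ) : ℤ) := by
      rcases h1.reach h2 h3 hc with h | rfl
      · exact h.2 i
      · exact h4 i
    refine h5.trans ?_
    have h6 : nd x.length + 1 ≤ 4 * (Nat.log 2 x.length + 1) := by
      unfold nd
      have h7 : Nat.log 2 (x.length + 1) ≤ Nat.log 2 x.length + 1 := by
        rcases Nat.eq_zero_or_pos x.length with h0 | h0
        · rw [h0]; simp
        · rw [← Nat.log_mul_base (by norm_num) (by omega)]
          exact Nat.log_mono_right (by omega)
      omega
    exact_mod_cast h6
  · obtain ⟨d, e, h1, h2, h3, _, h5⟩ := key x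
    constructor
    · intro h
      exact ⟨e, (h1.reachable.tail ((h2 _).2 rfl)), h5.2 h⟩
    · rintro ⟨c, hc, hs⟩
      rcases h1.reach h2 h3 hc with h | rfl
      · exact absurd hs h.1
      · exact h5.1 hs

end Pool.Agent.H60NL
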