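import Pool.Agent.H60NL.Prim

set_option autoImplicit false

/-!
# The diagonal construction
-/

namespace Pool.Agent.H60NL

open Pool.Agent.NPC Pool.Agent.H593R3.FBC Pool.Agent.H620R2.Gauge
open Pool.Agent.H639R2.NTP.C5 (allL mem_allL primrec_allL primrec_pairBits primrec_replicate)

attribute [local irreducible] unpair

/-- The triple number `e`. -/
def dec (e : ℕ) : List Bool × ℕ × ℕ :=
  (Encodable.decode (α := List Bool × ℕ × ℕ) e).getD ([], 0, 0)

theorem dec_encode (p : List Bool × ℕ × ℕ) : dec (Encodable.encode p) = p := by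
  unfold dec
  rw [Encodable.encodek]
  rfl

/-- The length used at the stage `e`. -/
def nE (e N : ℕ) : ℕ := 2 ^ ((dec e).2.2 + N + 7)

/-- The clock used at the stage `e`. -/
def sE (e N : ℕ) : ℕ := nE e N ^ (dec e).2.2 + (dec e).2.2

/-- The simulation made at the stage `e`. -/
def simE (e N : ℕ) (S : List (List Bool)) : Bool :=
  sim (dec e).1 (dec e).2.1 (sE e N) (AB (mem S)) (List.replicate (nE e N) true)

/-- The strings that can be added. -/
def cand (e N : ℕ) (S : List (List Bool)) : List (List Bool) :=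
  (allL (nE e N)).filter (fun y => decide (y.length = nE e N) && !simE e N (y :: S))

/-- The next stage. -/
def nextS (e : ℕ) (p : ℕ × List (List Bool)) : ℕ × List (List Bool) :=
  (nE e p.1 + sE e p.1, if simE e p.1 p.2 = true then p.2 else (cand e p.1 p.2).headI :: p.2)

/-- The stages. -/
def stage : ℕ → ℕ × List (List Bool)
  | 0 => (0, [])
  | e + 1 => nextS e (stage e)

theorem lt_nE (e N : ℕ) : N < nE e N := by
  unfold nE
  have h1 : N < 2 ^ N := Nat.lt_two_pow_self
  have h2 : 2 ^ N ≤ 2 ^ ((dec e).2.2 + N + 7) := Nat.pow_le_pow_right (by norm_num) (by omega)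
  omega

theorem sE_pos (e N : ℕ) : 0 < sE e N := by
  unfold sE
  have : 0 < nE e N ^ (dec e).2.2 := pow_pos (by have := lt_nE e N; omega) _
  omega

theorem pow_aux (r : ℕ) (hr : 7 ≤ r) : 2 * (r * (r + 1)) < 2 ^ r := by
  induction r, hr using Nat.le_induction with
  | base => norm_num
  | succ r hr ih =>
    have h1 : 4 * (r + 1) ≤ 2 ^ r := by
      nlinarith
    rw [pow_succ]
    nlinarith

theorem sE_sq_lt (e N : ℕ) : sE e N * sE e N < 2 ^ nE e N := by
  obtain ⟨m, hm⟩ : ∃ m, m = (dec e).2.2 := ⟨_, rfl⟩
  obtain ⟨r, hr⟩ : ∃ r, r = m + N + 7 := ⟨_, rfl⟩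
  have hn : nE e N = 2 ^ r := by unfold nE; rw [← hm, ← hr]
  have hs : sE e N = 2 ^ (r * m) + m := by unfold sE; rw [hn, ← hm, ← pow_mul]
  have h1 : sE e N ≤ 2 ^ (r * m + m) := by
    rw [hs, pow_add]
    have h2 : m + 1 ≤ 2 ^ m := Nat.lt_two_pow_self
    have h3 : 1 ≤ 2 ^ (r * m) := Nat.one_le_two_pow
    nlinarith
  have h4 : 2 * (r * m + m) < nE e N := by
    rw [hn]
    have h5 := pow_aux r (by omega)
    have h6 : m ≤ r := by omega
    nlinarith
  calc sE e N * sE e N ≤ 2 ^ (r * m + m) * 2 ^ (r * m + m) := Nat.mul_le_mul h1 h1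
    _ = 2 ^ (2 * (r * m + m)) := by rw [← pow_add]; congr 1; omega
    _ < 2 ^ nE e N := Nat.pow_lt_pow_right (by norm_num) h4

theorem exists_notMem (R : Finset (List Bool)) (n : ℕ) (h : R.card < 2 ^ n) :
    ∃ y : List Bool, y.length = n ∧ y ∉ R := by
  classical
  have h1 : ((Finset.univ : Finset (Fin n → Bool)).image (fun f => List.ofFn f)).card = 2 ^ n := by
    rw [Finset.card_image_of_injective _ List.ofFn_injective]
    simp
  obtain ⟨y, hy, hy'⟩ := Finset.exists_mem_notMem_of_card_lt_card (s := R)
    (t := (Finset.univ : Finset (Fin n → Bool)).image (fun f => List.ofFn f)) (by rw [h1]; exact h)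
  obtain ⟨f, _, rfl⟩ := Finset.mem_image.1 hy
  exact ⟨_, by simp, hy'⟩

theorem mem_cons_ne {y q : List Bool} {S : List (List Bool)} (h : q ≠ y) :
    mem (y :: S) q = mem S q := by
  unfold mem
  simp [h]

theorem cand_spec (e N : ℕ) (S : List (List Bool)) (h : simE e N S = false) :
    (cand e N S).headI.length = nE e N ∧ simE e N ((cand e N S).headI :: S) = false := by
  have h1 : ∃ y, y ∈ cand e N S := by
    obtain ⟨R, hR1, hR2, hR3⟩ := simAB_local (mem S) (dec e).1 (dec e).2.1 (sE e N)
      (List.replicate (nE e N) true)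
    obtain ⟨y, hy1, hy2⟩ := exists_notMem R (nE e N) (lt_of_le_of_lt hR1 (sE_sq_lt e N))
    refine ⟨y, ?_⟩
    unfold cand
    rw [List.mem_filter, mem_allL]
    refine ⟨hy1.le, ?_⟩
    have h2 : simE e N (y :: S) = simE e N S := by
      unfold simE
      refine hR3 _ fun q hq => mem_cons_ne ?_
      rintro rfl
      exact hy2 hq
    rw [h2, h]
    simp [hy1]
  obtain ⟨y, hy⟩ := h1
  have h2 : (cand e N S).headI ∈ cand e N S := by
    rcases h3 : cand e N S with _ | ⟨a, l⟩
    · rw [h3] at hy
      simp at hy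
    · simp
  have h3 := h2
  unfold cand at h3
  rw [List.mem_filter] at h3
  have h4 := h3.2
  rw [Bool.and_eq_true, decide_eq_true_eq, Bool.not_eq_true'] at h4
  exact h4

theorem stage_fst (e : ℕ) : (stage (e + 1)).1 = nE e (stage e).1 + sE e (stage e).1 := rfl

theorem stage_lt (e : ℕ) : (stage e).1 < (stage (e + 1)).1 := by
  rw [stage_fst]
  have := lt_nE e (stage e).1
  omega

theorem le_stage (e : ℕ) : e ≤ (stage e).1 := by
  induction e with
  | zero => simp
  | succ e ih => have := stage_lt e; omega

theorem stage_mono (e j : ℕ) : (stage e).1 ≤ (stage (e + j)).1 := by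
  induction j with
  | zero => simp
  | succ j ih => exact ih.trans (stage_lt _).le

theorem stage_snd (e : ℕ) : (stage (e + 1)).2 = (stage e).2 ∨
    ∃ y : List Bool, y.length = nE e (stage e).1 ∧ (stage (e + 1)).2 = y :: (stage e).2 := by
  show (nextS e (stage e)).2 = _ ∨ ∃ y : List Bool, _ ∧ (nextS e (stage e)).2 = _
  unfold nextS
  by_cases h : simE e (stage e).1 (stage e).2 = true
  · exact Or.inl (by simp [h])
  · refine Or.inr ⟨_, (cand_spec _ _ _ (by simpa using h)).1, ?_⟩
    simp only [if_neg h]

theorem stage_length (e : ℕ) : ∀ w ∈ (stage e).2, w.length < (stage e).1 := by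
  induction e with
  | zero => intro w hw; simp [stage] at hw
  | succ e ih =>
    intro w hw
    have h1 := stage_lt e
    have h2 := sE_pos e (stage e).1
    rcases stage_snd e with h | ⟨y, hy, h⟩
    · rw [h] at hw
      exact (ih w hw).trans h1
    · rw [h, List.mem_cons] at hw
      rcases hw with rfl | hw
      · rw [stage_fst]
        omega
      · exact (ih w hw).trans h1

theorem stage_stable (e j : ℕ) (q : List Bool) (hq : q.length < (stage e).1) :
    mem (stage (e + j)).2 q = mem (stage e).2 q := by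
  induction j with
  | zero => rfl
  | succ j ih =>
    rw [← ih, ← Nat.add_assoc]
    rcases stage_snd (e + j) with h | ⟨y, hy, h⟩
    · rw [h]
    · rw [h]
      refine mem_cons_ne ?_
      rintro rfl
      have h1 := lt_nE (e + j) (stage (e + j)).1
      have h2 := stage_mono e j
      omega

/-- The set `B`. -/
def Bf (w : List Bool) : Bool := mem (stage (w.length + 1)).2 w

theorem Bf_eq (e : ℕ) (q : List Bool) (hq : q.length < (stage e).1) :
    Bf q = mem (stage e).2 q := by
  have h1 : q.length < (stage (q.length + 1)).1 := le_stage (q.length + 1)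
  unfold Bf
  rcases Nat.le_total e (q.length + 1) with h | h
  · obtain ⟨j, hj⟩ := Nat.exists_eq_add_of_le h
    rw [hj]
    exact stage_stable e j q hq
  · obtain ⟨j, hj⟩ := Nat.exists_eq_add_of_le h
    rw [hj]
    exact (stage_stable _ j q h1).symm

/-- The diagonal property at the stage `e`. -/
theorem diag_stage (e : ℕ) :
    ((∃ y : List Bool, y.length = nE e (stage e).1 ∧ Bf y = true) ↔
      sim (dec e).1 (dec e).2.1 (sE e (stage e).1) (AB Bf)
        (List.replicate (nE e (stage e).1) true) = false) := by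
  obtain ⟨N, hN⟩ : ∃ N, N = (stage e).1 := ⟨_, rfl⟩
  have hs := sE_pos e (stage e).1
  have hn := lt_nE e (stage e).1
  have h0 : (stage (e + 1)).1 = nE e N + sE e N := by rw [stage_fst, hN]
  have h1 : sim (dec e).1 (dec e).2.1 (sE e (stage e).1) (AB Bf)
      (List.replicate (nE e (stage e).1) true) = simE e N (stage (e + 1)).2 := by
    obtain ⟨R, _, hR2, hR3⟩ := simAB_local (mem (stage (e + 1)).2) (dec e).1 (dec e).2.1
      (sE e N) (List.replicate (nE e N) true)
    unfold simE
    rw [← hN]
    refine hR3 _ fun q hq => Bf_eq _ _ ?_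
    have := hR2 q hq
    omega
  rw [h1]
  have h2 : (stage (e + 1)).2 = if simE e N (stage e).2 = true then (stage e).2 else
      (cand e N (stage e).2).headI :: (stage e).2 := by
    show (nextS e (stage e)).2 = _
    unfold nextS
    rw [← hN]
  by_cases h : simE e N (stage e).2 = true
  · rw [if_pos h] at h2
    rw [h2, h]
    refine iff_of_false ?_ (by simp)
    rintro ⟨y, hy, hy'⟩
    rw [Bf_eq (e + 1) y (by rw [stage_fst]; omega), h2] at hy'
    unfold mem at hy'
    rw [decide_eq_true_eq] at hy'
    have := stage_length e y hy'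
    omega
  · rw [if_neg h] at h2
    obtain ⟨h3, h4⟩ := cand_spec e N (stage e).2 (by simpa using h)
    rw [h2, h4]
    refine iff_of_true ⟨(cand e N (stage e).2).headI, by rw [h3, hN], ?_⟩ rfl
    rw [Bf_eq (e + 1) _ (by rw [h3, stage_fst, hN]; omega), h2]
    unfold mem
    simp

/-! ### Computability -/

theorem prim_dec : Primrec dec :=
  Primrec.option_getD.comp Primrec.decode (Primrec.const ([], 0, 0))

theorem prim_nE : Primrec₂ nE := by
  have h : Primrec (fun p : ℕ × ℕ => (2 : ℕ) ^ ((dec p.1).2.2 + p.2 + 7)) :=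
    Pool.Agent.H639R2.NTP.primrec_pow.comp (Primrec.const 2)
      (Primrec.nat_add.comp (Primrec.nat_add.comp
        (Primrec.snd.comp (Primrec.snd.comp (prim_dec.comp Primrec.fst))) Primrec.snd)
        (Primrec.const 7))
  exact h.to₂

theorem prim_sE : Primrec₂ sE := by
  have h0 : Primrec (fun p : ℕ × ℕ => (dec p.1).2.2) :=
    Primrec.snd.comp (Primrec.snd.comp (prim_dec.comp Primrec.fst))
  have h : Primrec (fun p : ℕ × ℕ => nE p.1 p.2 ^ (dec p.1).2.2 + (dec p.1).2.2) :=
    Primrec.nat_add.comp (Pool.Agent.H639R2.NTP.primrec_pow.comp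
      (prim_nE.comp Primrec.fst Primrec.snd) h0) h0
  exact h.to₂

theorem prim_simE {α : Type} [Primcodable α] {e N : α → ℕ} {S : α → List (List Bool)}
    (he : Primrec e) (hN : Primrec N) (hS : Primrec S) :
    Primrec (fun a => simE (e a) (N a) (S a)) := by
  unfold simE
  exact prim_simAB (Primrec.fst.comp (prim_dec.comp he))
    (Primrec.fst.comp (Primrec.snd.comp (prim_dec.comp he))) (prim_sE.comp he hN) hS
    (primrec_replicate.comp (prim_nE.comp he hN))

attribute [local irreducible] nE sE simE allL

theorem prim_cand {α : Type} [Primcodable α] {e N : α → ℕ} {S : α → List (List Bool)}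
    (he : Primrec e) (hN : Primrec N) (hS : Primrec S) :
    Primrec (fun a => cand (e a) (N a) (S a)) := by
  have h1 : PrimrecRel (fun (y : List Bool) (p : ℕ × ℕ × List (List Bool)) =>
      (decide (y.length = nE p.1 p.2.1) && !simE p.1 p.2.1 (y :: p.2.2)) = true) := by
    refine Primrec.eq.comp ?_ (Primrec.const true)
    have hn : Primrec (fun q : List Bool × (ℕ × ℕ × List (List Bool)) => nE q.2.1 q.2.2.1) :=
      prim_nE.comp (Primrec.fst.comp Primrec.snd)
        (Primrec.fst.comp (Primrec.snd.comp Primrec.snd))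
    refine Primrec.and.comp ?_ (Primrec.not.comp ?_)
    · exact (Primrec.eq.comp (Primrec.list_length.comp Primrec.fst) hn).decide
    · exact prim_simE (Primrec.fst.comp Primrec.snd)
        (Primrec.fst.comp (Primrec.snd.comp Primrec.snd))
        (Primrec.list_cons.comp Primrec.fst (Primrec.snd.comp (Primrec.snd.comp Primrec.snd)))
  have h2 := PrimrecRel.listFilter h1
  have h3 : Primrec (fun a : α => allL (nE (e a) (N a))) :=
    primrec_allL.comp (prim_nE.comp he hN)
  have h4 : Primrec (fun a : α => (e a, N a, S a)) := Primrec.pair he (Primrec.pair hN hS)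
  have h5 := h2.comp h3 h4
  refine h5.of_eq fun a => ?_
  unfold cand
  simp

theorem prim_stage : Primrec stage := by
  have h0 : Primrec₂ nextS := by
    unfold nextS
    have he : Primrec (fun q : ℕ × (ℕ × List (List Bool)) => q.1) := Primrec.fst
    have hN : Primrec (fun q : ℕ × (ℕ × List (List Bool)) => q.2.1) :=
      Primrec.fst.comp Primrec.snd
    have hS : Primrec (fun q : ℕ × (ℕ × List (List Bool)) => q.2.2) :=
      Primrec.snd.comp Primrec.snd
    have h : Primrec (fun q : ℕ × (ℕ × List (List Bool)) =>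
        ((nE q.1 q.2.1 + sE q.1 q.2.1, if simE q.1 q.2.1 q.2.2 = true then q.2.2 else
          (cand q.1 q.2.1 q.2.2).headI :: q.2.2) : ℕ × List (List Bool))) := by
      refine Primrec.pair (Primrec.nat_add.comp (prim_nE.comp he hN) (prim_sE.comp he hN)) ?_
      exact Primrec.ite (Primrec.eq.comp (prim_simE he hN hS) (Primrec.const true)) hS
        (Primrec.list_cons.comp (Primrec.list_headI.comp (prim_cand he hN hS)) hS)
    exact h.to₂
  refine (Primrec.nat_rec₁ (0, []) h0).of_eq fun n => ?_
  induction n with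
  | zero => rfl
  | succ n ih => simp only [stage, ← ih]

/-- The oracle is primitive recursive. -/
theorem prim_A : Primrec (AB Bf) := by
  have h : Primrec (fun w : List Bool => AB (mem (stage w.length).2) w) :=
    prim_AB (Primrec.snd.comp (prim_stage.comp Primrec.list_length)) Primrec.id
  refine h.of_eq fun w => ?_
  refine (AB_congr fun q hq => ?_).symm
  exact Bf_eq _ _ (lt_of_lt_of_le hq (le_stage _))

/-- The diagonal property. -/
theorem diag (z : List Bool) (k m : ℕ) : ∃ n : ℕ,
    ((∃ y : List Bool, y.length = n ∧ Bf y = true) ↔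
      sim z k (n ^ m + m) (AB Bf) (List.replicate n true) = false) := by
  have h := diag_stage (Encodable.encode (z, k, m))
  refine ⟨nE (Encodable.encode (z, k, m)) (stage (Encodable.encode (z, k, m))).1, ?_⟩
  unfold sE at h
  simp only [dec_encode] at h
  exact h

end Pool.Agent.H60NL
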