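import Pool.Agent.H60NL.Machine

set_option autoImplicit false

/-!
# A machine which guesses a string of the length of the input and asks for it
-/

namespace Pool.Agent.H60NL

/-- states of the guessing machine -/
inductive GQ : Type
  | s0 | s1 | q | y | n

instance : Finite GQ :=
  Finite.of_injective (fun s : GQ => match s with
    | .s0 => (0 : Fin 5) | .s1 => 1 | .q => 2 | .y => 3 | .n => 4)
    (by intro a b h; cases a <;> cases b <;> first | rfl | (simp at h))

/-- the transitions of the guessing machine -/
def gdel : GQ → InSym → Set (Act GQ Unit 0)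
  | .s0, .left => {⟨.s1, .right, fun _ => (), fun _ => .stay, some false⟩}
  | .s1, .bit _ => {a | ∃ b : Bool, a = ⟨.s1, .right, fun _ => (), fun _ => .stay, some b⟩}
  | .s1, .right => {⟨.q, .stay, fun _ => (), fun _ => .stay, none⟩}
  | _, _ => ∅

/-- the guessing machine: it writes `0` and then, for every input bit, an arbitrary bit -/
def guess : NOTM where
  Q := GQ
  finQ := inferInstance
  Γ := Unit
  finΓ := inferInstance
  k := 0
  blank := ()
  start := .s0
  acc := .y
  query := .q
  yes := .y
  no := .n
  δ := fun s i _ => gdel s i

/-- a configuration of the guessing machine -/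
def gc (s : GQ) (p : ℕ) (o : List Bool) : Cfg guess := ⟨s, p, fun _ _ => (), fun _ => 0, o⟩

theorem gc_eq (c : Cfg guess) : c = gc c.state c.pos c.ora := by
  obtain ⟨s, p, t, h, o⟩ := c
  unfold gc
  congr 1
  funext i
  exact i.elim0

theorem inSym_bit {x : List Bool} {i : ℕ} (h : i < x.length) : inSym x (i + 1) = .bit x[i] := by
  unfold inSym
  simp [h]

theorem inSym_right (x : List Bool) : inSym x (x.length + 1) = .right := by
  unfold inSym
  simp

theorem inSym_left (x : List Bool) : inSym x 0 = .left := by
  unfold inSym
  simp

/-- the configurations which occur -/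
inductive GInv (A : List Bool → Bool) (x : List Bool) : Cfg guess → Prop
  | init : GInv A x (gc .s0 0 [])
  | read (y : List Bool) : y.length ≤ x.length → GInv A x (gc .s1 (y.length + 1) (false :: y))
  | ask (y : List Bool) : y.length = x.length → GInv A x (gc .q (y.length + 1) (false :: y))
  | yes (y : List Bool) : y.length = x.length → A (false :: y) = true →
      GInv A x (gc .y (y.length + 1) [])
  | no (y : List Bool) : y.length = x.length → A (false :: y) = false →
      GInv A x (gc .n (y.length + 1) [])

/-- the number of remaining steps -/
def grank (n : ℕ) (c : Cfg guess) : ℕ :=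
  match c.state with
  | .s0 => n + 4
  | .s1 => n + 3 - c.pos
  | .q => 1
  | _ => 0

theorem gstep (A : List Bool → Bool) (x : List Bool) {c c' : Cfg guess} (hc : GInv A x c)
    (h : guess.Step A x c c') : GInv A x c' ∧ grank x.length c' < grank x.length c := by
  rw [gc_eq c']
  cases hc with
  | init =>
    rcases h with ⟨h1, _⟩ | ⟨_, a, ha, rfl⟩
    · cases h1
    · have h1 : a ∈ gdel .s0 (inSym x 0) := ha
      rw [inSym_left] at h1
      have h2 : a = ⟨.s1, .right, fun _ => (), fun _ => .stay, some false⟩ := h1
      subst h2
      refine ⟨?_, ?_⟩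
      · have := GInv.read (A := A) (x := x) [] (by simp)
        simpa [gc, movePos] using this
      · simp [grank, gc, movePos]
  | read y hy =>
    rcases h with ⟨h1, _⟩ | ⟨_, a, ha, rfl⟩
    · cases h1
    · rcases hy.lt_or_eq with hlt | heq
      · have h1 : a ∈ gdel .s1 (inSym x (y.length + 1)) := ha
        rw [inSym_bit hlt] at h1
        obtain ⟨b, h2⟩ : ∃ b : Bool, a = ⟨.s1, .right, fun _ => (), fun _ => .stay, some b⟩ := h1
        subst h2
        refine ⟨?_, ?_⟩
        · have := GInv.read (A := A) (x := x) (y ++ [b]) (by simp; omega)
          have e : min (y.length + 1 + 1) (x.length + 1) = y.length + 1 + 1 := by omega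
          simpa [gc, movePos, e] using this
        · simp only [grank, gc, movePos]
          omega
      · have h1 : a ∈ gdel .s1 (inSym x (y.length + 1)) := ha
        rw [heq, inSym_right] at h1
        have h2 : a = ⟨.q, .stay, fun _ => (), fun _ => .stay, none⟩ := h1
        subst h2
        refine ⟨?_, ?_⟩
        · have := GInv.ask (A := A) (x := x) y heq
          simpa [gc, movePos] using this
        · simp only [grank, gc]
          omega
  | ask y hy =>
    rcases h with ⟨_, rfl⟩ | ⟨h1, _⟩
    · refine ⟨?_, ?_⟩
      · cases hA : A (false :: y) with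
        | true =>
          have := GInv.yes (A := A) (x := x) y hy hA
          simpa [gc, guess, hA] using this
        | false =>
          have := GInv.no (A := A) (x := x) y hy hA
          simpa [gc, guess, hA] using this
      · cases hA : A (false :: y) <;> simp [grank, gc, guess, hA]
    · exact absurd rfl h1
  | yes y hy hA =>
    rcases h with ⟨h1, _⟩ | ⟨_, a, ha, rfl⟩
    · cases h1
    · exact absurd ha (Set.notMem_empty a)
  | no y hy hA =>
    rcases h with ⟨h1, _⟩ | ⟨_, a, ha, rfl⟩
    · cases h1
    · exact absurd ha (Set.notMem_empty a)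

theorem ginit : guess.init = gc .s0 0 [] := by
  rw [gc_eq guess.init]
  rfl

theorem greach (A : List Bool → Bool) (x : List Bool) {c : Cfg guess} (h : guess.Reach A x c) :
    GInv A x c := by
  unfold NOTM.Reach at h
  induction h with
  | refl => rw [ginit]; exact .init
  | tail _ h ih => exact (gstep A x ih h).1

theorem greach_read (A : List Bool → Bool) (x : List Bool) : ∀ y : List Bool,
    y.length ≤ x.length → guess.Reach A x (gc .s1 (y.length + 1) (false :: y)) := by
  intro y
  induction y using List.reverseRecOn with
  | nil =>
    intro _
    refine Relation.ReflTransGen.single ?_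
    rw [ginit]
    refine Or.inr ⟨by simp [gc, guess], ⟨.s1, .right, fun _ => (), fun _ => .stay, some false⟩, ?_, ?_⟩
    · change _ ∈ gdel .s0 (inSym x 0)
      rw [inSym_left]
      exact rfl
    · rw [gc_eq ⟨_, _, _, _, _⟩]
      simp [gc, movePos]
  | append_singleton y b ih =>
    intro hy
    rw [List.length_append, List.length_singleton] at hy
    refine (ih (by omega)).tail ?_
    refine Or.inr ⟨by simp [gc, guess], ⟨.s1, .right, fun _ => (), fun _ => .stay, some b⟩, ?_, ?_⟩
    · change _ ∈ gdel .s1 (inSym x (y.length + 1))
      rw [inSym_bit (show y.length < x.length by omega)]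
      exact ⟨b, rfl⟩
    · rw [gc_eq ⟨_, _, _, _, _⟩]
      have e : min (y.length + 1 + 1) (x.length + 1) = y.length + 1 + 1 := by omega
      simp [gc, movePos, e]

/-- The language of the strings `x` such that `false :: y` is in the oracle for some `y` of the
length of `x`. -/
theorem nl_guess (A : List Bool → Bool) :
    IsNLstar A {x | ∃ y : List Bool, y.length = x.length ∧ A (false :: y) = true} := by
  refine ⟨guess, fun x => ?_, ⟨0, fun x c _ i => i.elim0⟩, fun x => ?_⟩
  · rintro ⟨f, hf0, hf⟩
    have h1 : ∀ i, GInv A x (f i) := by
      intro i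
      induction i with
      | zero => rw [hf0, ginit]; exact .init
      | succ i ih => exact (gstep A x ih (hf i)).1
    have h2 : ∀ i, grank x.length (f i) + i ≤ grank x.length (f 0) := by
      intro i
      induction i with
      | zero => simp
      | succ i ih =>
        have := (gstep A x (h1 i) (hf i)).2
        omega
    have := h2 (grank x.length (f 0) + 1)
    omega
  · constructor
    · rintro ⟨y, hy, hA⟩
      refine ⟨gc .y (y.length + 1) [], ?_, rfl⟩
      refine ((greach_read A x y hy.le).tail (b := gc .s1 (y.length + 1) (false :: y))
        (c := gc .q (y.length + 1) (false :: y)) ?_).tail ?_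
      · refine Or.inr ⟨by simp [gc, guess], ⟨.q, .stay, fun _ => (), fun _ => .stay, none⟩, ?_, ?_⟩
        · change _ ∈ gdel .s1 (inSym x (y.length + 1))
          rw [hy, inSym_right]
          exact rfl
        · rw [gc_eq ⟨_, _, _, _, _⟩]
          simp [gc, movePos]
      · refine Or.inl ⟨rfl, ?_⟩
        simp [gc, guess, hA]
    · rintro ⟨c, hc, hs⟩
      have h := greach A x hc
      cases h with
      | init => cases hs
      | read y _ => cases hs
      | ask y _ => cases hs
      | yes y hy hA => exact ⟨y, hy, hA⟩
      | no y _ _ => cases hs

end Pool.Agent.H60NL
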