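import Mathlib

set_option autoImplicit false

/-!
# Nondeterministic oracle machines with a read-only input tape and a write-only oracle tape

Only the cells of the work tapes are counted for the space; the length of the queries is not
bounded by the space bound.
-/

namespace Pool.Agent.H60NL

/-- The symbol under the input head: an input bit, or one of the two end markers. -/
inductive InSym : Type
  | left
  | bit (b : Bool)
  | right

/-- The moves of a head. -/
inductive Dir : Type
  | left
  | stay
  | right

/-- What a machine does in one step: the new state, the move of the input head, the symbols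
written on the `k` work tapes (in the scanned cells), the moves of the work heads, and the symbol
appended to the string on the write-only oracle tape (`none`: nothing is written there). -/
structure Act (Q Γ : Type) (k : ℕ) : Type where
  state : Q
  inp : Dir
  write : Fin k → Γ
  work : Fin k → Dir
  out : Option Bool

/-- A nondeterministic oracle Turing machine with `k` work tapes, a read-only input tape and a
write-only oracle tape. The transition relation `δ` gives the possible actions in a state, when
the input head and the work heads scan the given symbols. In the state `query` the machine asks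
whether the string on the oracle tape is in the oracle, and goes to the state `yes` or `no`. -/
structure NOTM : Type 1 where
  Q : Type
  finQ : Finite Q
  Γ : Type
  finΓ : Finite Γ
  k : ℕ
  blank : Γ
  start : Q
  acc : Q
  query : Q
  yes : Q
  no : Q
  δ : Q → InSym → (Fin k → Γ) → Set (Act Q Γ k)

/-- Configurations: the state, the position of the input head, the contents of the work tapes and
the positions of their heads, and the string on the oracle tape. -/
@[ext] structure Cfg (M : NOTM) : Type where
  state : M.Q
  pos : ℕ
  tape : Fin M.k → ℤ → M.Γ
  head : Fin M.k → ℤ
  ora : List Bool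

/-- The symbol at position `p` of the input tape: the input `x` of length `n` is at the positions
`1, …, n`, the end markers are at the positions `0` and `n + 1`. -/
def inSym (x : List Bool) (p : ℕ) : InSym :=
  if p = 0 then .left else match x[p - 1]? with
    | some b => .bit b
    | none => .right

/-- Moves of the input head, between the two end markers. -/
def movePos (n : ℕ) : Dir → ℕ → ℕ
  | .left, p => p - 1
  | .stay, p => p
  | .right, p => min (p + 1) (n + 1)

/-- Moves of a work head. -/
def Dir.toInt : Dir → ℤ
  | .left => -1
  | .stay => 0
  | .right => 1

/-- One step of the computation on input `x` with oracle `A`. After a query is answered, the oracle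
tape is erased. -/
def NOTM.Step (M : NOTM) (A : List Bool → Bool) (x : List Bool) (c c' : Cfg M) : Prop :=
  (c.state = M.query ∧
      c' = ⟨if A c.ora = true then M.yes else M.no, c.pos, c.tape, c.head, []⟩) ∨
  (c.state ≠ M.query ∧ ∃ a ∈ M.δ c.state (inSym x c.pos) (fun i => c.tape i (c.head i)),
      c' = ⟨a.state, movePos x.length a.inp c.pos,
        fun i => Function.update (c.tape i) (c.head i) (a.write i),
        fun i => c.head i + (a.work i).toInt, c.ora ++ a.out.toList⟩)

/-- The initial configuration: all heads at position `0`, all work cells blank. -/
def NOTM.init (M : NOTM) : Cfg M := ⟨M.start, 0, fun _ _ => M.blank, fun _ => 0, []⟩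

/-- The configurations reachable from the initial one on input `x` with oracle `A`. -/
def NOTM.Reach (M : NOTM) (A : List Bool → Bool) (x : List Bool) (c : Cfg M) : Prop :=
  Relation.ReflTransGen (M.Step A x) M.init c

/-- Every computation path on input `x` is finite. -/
def NOTM.Halts (M : NOTM) (A : List Bool → Bool) (x : List Bool) : Prop :=
  ¬ ∃ f : ℕ → Cfg M, f 0 = M.init ∧ ∀ i, M.Step A x (f i) (f (i + 1))

/-- Some computation path on input `x` leads to the accepting state. -/
def NOTM.Accepts (M : NOTM) (A : List Bool → Bool) (x : List Bool) : Prop :=
  ∃ c, M.Reach A x c ∧ c.state = M.acc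

/-- The language `L` is in `NL_*` relative to `A`: some nondeterministic oracle machine accepts
`L`, all its computation paths are finite, and on inputs of length `n` its work heads stay within
distance `a (log₂ n + 1)` from their initial positions, so that only `O(log n)` work cells are
used. There is no bound for the length of the queries. -/
def IsNLstar (A : List Bool → Bool) (L : Set (List Bool)) : Prop :=
  ∃ M : NOTM, (∀ x, M.Halts A x) ∧
    (∃ a : ℕ, ∀ x c, M.Reach A x c → ∀ i, |c.head i| ≤ (a * (Nat.log 2 x.length + 1) : ℕ)) ∧
    ∀ x, x ∈ L ↔ M.Accepts A x

/-! ### Deterministic runs -/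

/-- A run from `c` to `d` all of whose configurations (including `d`) have the property `P`, and
such that every configuration before `d` has exactly one successor. -/
inductive Run (M : NOTM) (A : List Bool → Bool) (x : List Bool) (P : Cfg M → Prop) :
    Cfg M → Cfg M → Prop
  | refl (c : Cfg M) : P c → Run M A x P c c
  | head (c d e : Cfg M) : P c → (∀ c', M.Step A x c c' ↔ c' = d) → Run M A x P d e →
      Run M A x P c e

namespace Run

variable {M : NOTM} {A : List Bool → Bool} {x : List Bool} {P : Cfg M → Prop}

theorem trans {c d e : Cfg M} (h : Run M A x P c d) (h' : Run M A x P d e) : Run M A x P c e := by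
  induction h with
  | refl c _ => exact h'
  | head c d e' hc hs _ ih => exact .head c d e hc hs (ih h')

theorem one {c d : Cfg M} (hc : P c) (hd : P d) (hs : ∀ c', M.Step A x c c' ↔ c' = d) :
    Run M A x P c d := .head c d d hc hs (.refl d hd)

/-- If the run ends in a configuration with a single successor `e`, which has no successor, then
the reachable configurations are those of the run and `e`. -/
theorem reach {c d e : Cfg M} (h : Run M A x P c d) (hs : ∀ c', M.Step A x d c' ↔ c' = e)
    (he : ∀ c', ¬ M.Step A x e c') {r : Cfg M} (hr : Relation.ReflTransGen (M.Step A x) c r) :
    P r ∨ r = e := by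
  induction h with
  | refl c hc =>
    rcases hr.cases_head with rfl | ⟨c', h1, h2⟩
    · exact Or.inl hc
    · rw [hs] at h1
      subst h1
      rcases h2.cases_head with rfl | ⟨c', h1, _⟩
      · exact Or.inr rfl
      · exact absurd h1 (he _)
  | head c d' d hc hs' _ ih =>
    rcases hr.cases_head with rfl | ⟨c', h1, h2⟩
    · exact Or.inl hc
    · rw [hs'] at h1
      subst h1
      exact ih hs h2

theorem reachable {c d : Cfg M} (h : Run M A x P c d) :
    Relation.ReflTransGen (M.Step A x) c d := by
  induction h with
  | refl c _ => exact .refl
  | head c d' d _ hs' _ ih => exact .head ((hs' _).2 rfl) ih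

theorem halts {c d e : Cfg M} (h : Run M A x P c d) (hs : ∀ c', M.Step A x d c' ↔ c' = e)
    (he : ∀ c', ¬ M.Step A x e c') : ¬ ∃ f : ℕ → Cfg M, f 0 = c ∧ ∀ i, M.Step A x (f i) (f (i + 1)) := by
  induction h with
  | refl c hc =>
    rintro ⟨f, rfl, hf⟩
    have h1 := hf 0
    rw [hs] at h1
    have h2 := hf 1
    rw [zero_add] at h1
    rw [h1] at h2
    exact he _ h2
  | head c d' d hc hs' _ ih =>
    rintro ⟨f, rfl, hf⟩
    refine ih hs ⟨fun i => f (i + 1), ?_, fun i => hf (i + 1)⟩
    have h1 := hf 0
    rw [hs'] at h1
    exact h1

end Run

end Pool.Agent.H60NL
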