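import Pool.Agent.H60NL.Sim

set_option autoImplicit false

/-!
# The oracle coding its own polynomial time

For every `B` there is exactly one `A` such that `A [] = false`, `A (false :: y) = B y` and
`A (true :: ⟨⟨z, 1^k⟩, ⟨x, 1^t⟩⟩)` tells whether the algorithm number `z, k` accepts `x` after `√t`
rounds with oracle `A`.
-/

namespace Pool.Agent.H60NL

open Pool.Agent.NPC Pool.Agent.H593R3.FBC Pool.Agent.H620R2.Gauge

theorem ustep_length (s : List Bool × List Bool × Bool) :
    (ustep s).2.1.length ≤ s.2.1.length := by
  obtain ⟨a, l, b⟩ := s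
  unfold ustep
  cases b with
  | true => simp
  | false =>
    match l with
    | [] => simp
    | true :: [] => simp
    | true :: c :: l' => simp; omega
    | false :: l' => simp

theorem unpair_length (y : List Bool) : (unpair y).2.length ≤ y.length := by
  unfold unpair
  have h : ∀ n : ℕ, (ustep^[n] ([], y, false)).2.1.length ≤ y.length := by
    intro n
    induction n with
    | zero => simp
    | succ n ih =>
      rw [Function.iterate_succ_apply']
      exact (ustep_length _).trans ih
  exact h _

/-- One level of the definition. -/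
def evalW (O B : List Bool → Bool) : List Bool → Bool
  | [] => false
  | false :: y => B y
  | true :: u => sim (unpair (unpair u).1).1 (unpair (unpair u).1).2.length
      (Nat.sqrt (unpair (unpair u).2).2.length) O (unpair (unpair u).2).1

theorem sqrt_lt (u : List Bool) : Nat.sqrt (unpair (unpair u).2).2.length ≤ u.length := by
  have h1 := unpair_length u
  have h2 := unpair_length (unpair u).2
  have h3 := Nat.sqrt_le_self (unpair (unpair u).2).2.length
  omega

theorem sqrt_sq_lt (u : List Bool) :
    Nat.sqrt (unpair (unpair u).2).2.length * Nat.sqrt (unpair (unpair u).2).2.length ≤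
      u.length := by
  have h1 := unpair_length u
  have h2 := unpair_length (unpair u).2
  have h3 := Nat.sqrt_le (unpair (unpair u).2).2.length
  omega

theorem sim_congr (z : List Bool) (k s : ℕ) (O O' : List Bool → Bool) (x : List Bool)
    (h : ∀ q : List Bool, q.length ≤ s → O' q = O q) : sim z k s O' x = sim z k s O x := by
  obtain ⟨R, _, h2, h3⟩ := sim_local z k s O x
  exact h3 O' fun q hq => h q (h2 q hq)

theorem evalW_congr (O O' B : List Bool → Bool) (w : List Bool)
    (h : ∀ q : List Bool, q.length < w.length → O' q = O q) : evalW O' B w = evalW O B w := by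
  match w with
  | [] => rfl
  | false :: y => rfl
  | true :: u =>
    unfold evalW
    refine sim_congr _ _ _ _ _ _ fun q hq => h q ?_
    have := sqrt_lt u
    rw [List.length_cons]
    omega

/-- The approximations. -/
def AN (B : List Bool → Bool) : ℕ → List Bool → Bool
  | 0, _ => false
  | n + 1, w => evalW (AN B n) B w

theorem AN_eq (B : List Bool → Bool) : ∀ (n m : ℕ) (w : List Bool), w.length < n →
    w.length < m → AN B n w = AN B m w := by
  intro n
  induction n with
  | zero => intro m w h; omega
  | succ n ih =>
    intro m w h h'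
    obtain ⟨m, rfl⟩ : ∃ m', m = m' + 1 := ⟨m - 1, by omega⟩
    show evalW (AN B n) B w = evalW (AN B m) B w
    exact evalW_congr _ _ _ _ fun q hq => ih m q (by omega) (by omega)

/-- The oracle coding its own polynomial time, over `B`. -/
def AB (B : List Bool → Bool) (w : List Bool) : Bool := AN B (w.length + 1) w

theorem AB_eq (B : List Bool → Bool) (w : List Bool) : AB B w = evalW (AB B) B w := by
  show evalW (AN B w.length) B w = evalW (AB B) B w
  exact evalW_congr _ _ _ _ fun q hq => AN_eq B _ _ q (by omega) (by omega)

theorem AB_false (B : List Bool → Bool) (y : List Bool) : AB B (false :: y) = B y := AB_eq B _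

/-- The coding property. -/
theorem AB_true (B : List Bool → Bool) (z x : List Bool) (k t : ℕ) :
    AB B (true :: pairBits (pairBits z (List.replicate k true))
      (pairBits x (List.replicate t true))) = sim z k (Nat.sqrt t) (AB B) x := by
  rw [AB_eq]
  unfold evalW
  simp only [unpair_pairBits, List.length_replicate]

/-- `AB B w` depends on at most `|w|` values of `B`, at strings shorter than `w`. -/
theorem AB_local (B : List Bool → Bool) : ∀ (n : ℕ) (w : List Bool), w.length = n →
    ∃ R : Finset (List Bool), R.card ≤ n ∧ (∀ q ∈ R, q.length < n) ∧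
      ∀ B' : List Bool → Bool, (∀ q ∈ R, B' q = B q) → AB B' w = AB B w := by
  classical
  intro n
  induction n using Nat.strong_induction_on with
  | _ n ih =>
    intro w hw
    match w with
    | [] => exact ⟨∅, by simp, by simp, fun B' _ => by rw [AB_eq, AB_eq]; rfl⟩
    | false :: y =>
      rw [List.length_cons] at hw
      refine ⟨{y}, ?_, ?_, fun B' h => ?_⟩
      · rw [Finset.card_singleton]; omega
      · intro q hq
        rw [Finset.mem_singleton] at hq
        subst hq
        omega
      · rw [AB_false, AB_false]
        exact h y (Finset.mem_singleton_self _)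
    | true :: u =>
      rw [List.length_cons] at hw
      obtain ⟨s, hs⟩ : ∃ s, s = Nat.sqrt (unpair (unpair u).2).2.length := ⟨_, rfl⟩
      have h1 : s ≤ u.length := hs ▸ sqrt_lt u
      have h2 : s * s ≤ u.length := hs ▸ sqrt_sq_lt u
      obtain ⟨R, hR1, hR2, hR3⟩ := sim_local (unpair (unpair u).1).1 (unpair (unpair u).1).2.length
        s (AB B) (unpair (unpair u).2).1
      choose! T hT1 hT2 hT3 using fun q : List Bool => fun hq : q ∈ R =>
        ih q.length (by have := hR2 q hq; omega) q rfl
      refine ⟨R.biUnion T, ?_, ?_, fun B' hB' => ?_⟩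
      · refine (Finset.card_biUnion_le_card_mul R T s fun q hq =>
          (hT1 q hq).trans (hR2 q hq)).trans ?_
        have : R.card * s ≤ s * s := Nat.mul_le_mul_right _ hR1
        omega
      · intro q hq
        obtain ⟨r, hr, hqr⟩ := Finset.mem_biUnion.1 hq
        have h3 := hT2 r hr q hqr
        have h4 := hR2 r hr
        omega
      · rw [AB_eq, AB_eq B]
        simp only [evalW]
        rw [← hs]
        refine hR3 _ fun q hq => ?_
        exact hT3 q hq B' fun r hr => hB' r (Finset.mem_biUnion.2 ⟨q, hq, hr⟩)

/-- `AB B w` depends only on `B` at strings shorter than `w`. -/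
theorem AB_congr {B B' : List Bool → Bool} {w : List Bool}
    (h : ∀ q : List Bool, q.length < w.length → B' q = B q) : AB B' w = AB B w := by
  obtain ⟨R, _, h2, h3⟩ := AB_local B _ w rfl
  exact h3 B' fun q hq => h q (h2 q hq)

/-- A simulation with clock `s` depends on at most `s ^ 2` values of `B`, at strings shorter than
`s`. -/
theorem simAB_local (B : List Bool → Bool) (z : List Bool) (k s : ℕ) (x : List Bool) :
    ∃ R : Finset (List Bool), R.card ≤ s * s ∧ (∀ q ∈ R, q.length < s) ∧
      ∀ B' : List Bool → Bool, (∀ q ∈ R, B' q = B q) →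
        sim z k s (AB B') x = sim z k s (AB B) x := by
  classical
  obtain ⟨R, hR1, hR2, hR3⟩ := sim_local z k s (AB B) x
  choose T hT1 hT2 hT3 using fun q : List Bool => AB_local B q.length q rfl
  refine ⟨R.biUnion T, ?_, ?_, fun B' hB' => ?_⟩
  · refine (Finset.card_biUnion_le_card_mul R T s fun q hq =>
      (hT1 q).trans (hR2 q hq)).trans ?_
    exact Nat.mul_le_mul_right _ hR1
  · intro q hq
    obtain ⟨r, hr, hqr⟩ := Finset.mem_biUnion.1 hq
    have h3 := hT2 r q hqr
    have h4 := hR2 r hr
    omega
  · refine hR3 _ fun q hq => ?_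
    exact hT3 q B' fun r hr => hB' r (Finset.mem_biUnion.2 ⟨q, hq, hr⟩)

/-! ### The list version -/

/-- The oracle given by a finite list. -/
def mem (S : List (List Bool)) (w : List Bool) : Bool := decide (w ∈ S)

/-- The strings shorter than `n` in `AB (mem S)`. -/
def accL (S : List (List Bool)) : ℕ → List (List Bool)
  | 0 => []
  | n + 1 => (Pool.Agent.H639R2.NTP.C5.allL n).filter
      (fun w => evalW (mem (accL S n)) (mem S) w)

theorem mem_accL (S : List (List Bool)) : ∀ (n : ℕ) (w : List Bool),
    w ∈ accL S n ↔ w.length < n ∧ AB (mem S) w = true := by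
  intro n
  induction n with
  | zero => intro w; simp [accL]
  | succ n ih =>
    intro w
    unfold accL
    rw [List.mem_filter, Pool.Agent.H639R2.NTP.C5.mem_allL]
    constructor
    · rintro ⟨h1, h2⟩
      refine ⟨by omega, ?_⟩
      rw [AB_eq, ← h2]
      refine evalW_congr _ _ _ _ fun q hq => ?_
      rw [Bool.eq_iff_iff]
      unfold mem
      rw [decide_eq_true_eq, ih]
      exact ⟨fun h => ⟨by omega, h⟩, fun h => h.2⟩
    · rintro ⟨h1, h2⟩
      refine ⟨by omega, ?_⟩
      rw [AB_eq] at h2
      rw [← h2]
      refine evalW_congr _ _ _ _ fun q hq => ?_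
      rw [Bool.eq_iff_iff]
      unfold mem
      rw [decide_eq_true_eq, ih]
      exact ⟨fun h => h.2, fun h => ⟨by omega, h⟩⟩

theorem mem_accL_eq (S : List (List Bool)) (n : ℕ) (w : List Bool) (h : w.length < n) :
    mem (accL S n) w = AB (mem S) w := by
  rw [Bool.eq_iff_iff]
  unfold mem
  rw [decide_eq_true_eq, mem_accL]
  exact ⟨fun h' => h'.2, fun h' => ⟨h, h'⟩⟩

theorem sim_accL (S : List (List Bool)) (z : List Bool) (k s : ℕ) (x : List Bool) :
    sim z k s (mem (accL S (s + 1))) x = sim z k s (AB (mem S)) x :=
  sim_congr _ _ _ _ _ _ fun q hq => mem_accL_eq S _ q (by omega)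

end Pool.Agent.H60NL
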