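import Pool.Agent.H60NL.Orac

set_option autoImplicit false

/-!
# The simulation and the oracle are primitive recursive
-/

namespace Pool.Agent.H60NL

open Pool.Agent.NPC Pool.Agent.H593R3.FBC Pool.Agent.H620R2.Gauge
open Pool.Agent.H639R2.NTP.C5 (allL mem_allL primrec_allL primrec_pairBits primrec_replicate)

attribute [local irreducible] unpair

theorem prim_unpair : Primrec unpair := by
  have h1 : Primrec (fun y : List Bool => (unpair y).1) :=
    prim_str (NPC.Poly.fst poly_unpair)
  have h2 : Primrec (fun y : List Bool => (unpair y).2) :=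
    prim_str (NPC.Poly.snd poly_unpair)
  exact (Primrec.pair h1 h2).of_eq fun y => rfl

theorem prim_mem {α : Type} [Primcodable α] {S : α → List (List Bool)} {w : α → List Bool}
    (hS : Primrec S) (hw : Primrec w) : Primrec (fun a => mem (S a) (w a)) := by
  have h1 : PrimrecRel (fun (L : List (List Bool)) (b : List Bool) => ∃ a ∈ L, a = b) :=
    PrimrecRel.exists_mem_list Primrec.eq
  have h2 : PrimrecPred (fun a => ∃ b ∈ S a, b = w a) := h1.comp hS hw
  have h3 : PrimrecPred (fun a => w a ∈ S a) := h2.of_eq fun a => by simp
  unfold mem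
  exact h3.decide

theorem prim_clip {α : Type} [Primcodable α] {s : α → ℕ} {S : α → List (List Bool)}
    {q : α → List Bool} (hs : Primrec s) (hS : Primrec S) (hq : Primrec q) :
    Primrec (fun a => clip (s a) (mem (S a)) (q a)) := by
  unfold clip
  exact Primrec.ite (Primrec.nat_le.comp (Primrec.list_length.comp hq) hs) (prim_mem hS hq)
    (Primrec.const false)

theorem prim_st {α : Type} [Primcodable α] {z x v : α → List Bool} {k s : α → ℕ}
    {S : α → List (List Bool)} (hz : Primrec z) (hk : Primrec k) (hs : Primrec s)
    (hS : Primrec S) (hx : Primrec x) (hv : Primrec v) :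
    Primrec (fun a => st (z a) (k a) (clip (s a) (mem (S a))) (x a) (v a)) := by
  unfold st
  have h1 : Primrec (fun a => FU (z a) (k a) (pairBits (x a) (v a))) :=
    prim_FU hz hk (prim_pair hx hv)
  have h2 : Primrec (fun a => (FU (z a) (k a) (pairBits (x a) (v a))).tail) :=
    Primrec.list_tail.comp h1
  refine Primrec.ite (Primrec.eq.comp (Primrec.list_head?.comp h1) (Primrec.const (some false)))
    ?_ hv
  exact Primrec.list_append.comp hv
    (Primrec.list_cons.comp (prim_clip hs hS h2) (Primrec.const []))

theorem prim_sim {α : Type} [Primcodable α] {z x : α → List Bool} {k s : α → ℕ}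
    {S : α → List (List Bool)} (hz : Primrec z) (hk : Primrec k) (hs : Primrec s)
    (hS : Primrec S) (hx : Primrec x) :
    Primrec (fun a => sim (z a) (k a) (s a) (mem (S a)) (x a)) := by
  unfold sim
  have h1 : Primrec (fun a => (st (z a) (k a) (clip (s a) (mem (S a))) (x a))^[s a] []) := by
    refine Primrec.nat_iterate (h := fun a v => st (z a) (k a) (clip (s a) (mem (S a))) (x a) v)
      hs (Primrec.const []) ?_
    exact (prim_st (hz.comp Primrec.fst) (hk.comp Primrec.fst) (hs.comp Primrec.fst)
      (hS.comp Primrec.fst) (hx.comp Primrec.fst) Primrec.snd).to₂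
  exact (Primrec.eq.comp (prim_FU hz hk (prim_pair hx h1)) (Primrec.const [true, true])).decide

theorem prim_evalW {α : Type} [Primcodable α] {O S : α → List (List Bool)} {w : α → List Bool}
    (hO : Primrec O) (hS : Primrec S) (hw : Primrec w) :
    Primrec (fun a => evalW (mem (O a)) (mem (S a)) (w a)) := by
  have h0 : Primrec (fun a => (w a).tail) := Primrec.list_tail.comp hw
  have hp : ∀ {f : α → List Bool}, Primrec f → Primrec (fun a => (unpair (f a)).1) :=
    fun hf => Primrec.fst.comp (prim_unpair.comp hf)
  have hq : ∀ {f : α → List Bool}, Primrec f → Primrec (fun a => (unpair (f a)).2) :=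
    fun hf => Primrec.snd.comp (prim_unpair.comp hf)
  have h1 := prim_sim (hp (hp h0)) (Primrec.list_length.comp (hq (hp h0)))
    (Primrec.nat_sqrt.comp (Primrec.list_length.comp (hq (hq h0)))) hO (hp (hq h0))
  have h2 : Primrec (fun a => if (w a).head? = some true then
      sim (unpair (unpair (w a).tail).1).1 (unpair (unpair (w a).tail).1).2.length
        (Nat.sqrt (unpair (unpair (w a).tail).2).2.length) (mem (O a))
        (unpair (unpair (w a).tail).2).1
      else if (w a).head? = some false then mem (S a) (w a).tail else false) := by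
    refine Primrec.ite (Primrec.eq.comp (Primrec.list_head?.comp hw) (Primrec.const (some true)))
      h1 ?_
    exact Primrec.ite (Primrec.eq.comp (Primrec.list_head?.comp hw) (Primrec.const (some false)))
      (prim_mem hS h0) (Primrec.const false)
  refine h2.of_eq fun a => ?_
  rcases w a with _ | ⟨b, u⟩
  · simp [evalW]
  · cases b
    · simp [evalW]
    · simp [evalW]

theorem prim_accL {α : Type} [Primcodable α] {S : α → List (List Bool)} {n : α → ℕ}
    (hS : Primrec S) (hn : Primrec n) : Primrec (fun a => accL (S a) (n a)) := by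
  have h0 : Primrec₂ (fun (a : α) (p : ℕ × List (List Bool)) =>
      (allL p.1).filter (fun w => evalW (mem p.2) (mem (S a)) w)) := by
    have h1 : PrimrecRel (fun (w : List Bool) (p : List (List Bool) × List (List Bool)) =>
        evalW (mem p.1) (mem p.2) w = true) := by
      refine Primrec.eq.comp ?_ (Primrec.const true)
      exact prim_evalW (Primrec.fst.comp Primrec.snd) (Primrec.snd.comp Primrec.snd) Primrec.fst
    have h2 := PrimrecRel.listFilter h1
    have h3 : Primrec (fun q : α × (ℕ × List (List Bool)) =>
        (allL q.2.1).filter (fun w => evalW (mem q.2.2) (mem (S q.1)) w = true)) :=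
      h2.comp (primrec_allL.comp (Primrec.fst.comp Primrec.snd))
        (Primrec.pair (Primrec.snd.comp Primrec.snd) (hS.comp Primrec.fst))
    have h4 : Primrec (fun q : α × (ℕ × List (List Bool)) =>
        (allL q.2.1).filter (fun w => evalW (mem q.2.2) (mem (S q.1)) w)) :=
      h3.of_eq fun q => by simp
    exact h4.to₂
  refine (Primrec.nat_rec' (f := n) (g := fun _ => []) (h := fun a p =>
    (allL p.1).filter (fun w => evalW (mem p.2) (mem (S a)) w)) hn (Primrec.const []) h0).of_eq
    fun a => ?_
  have : ∀ m : ℕ, Nat.rec (motive := fun _ => List (List Bool)) [] (fun m p =>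
      (allL m).filter (fun w => evalW (mem p) (mem (S a)) w)) m = accL (S a) m := by
    intro m
    induction m with
    | zero => rfl
    | succ m ih => simp only [accL, ← ih]
  exact this (n a)

theorem prim_AB {α : Type} [Primcodable α] {S : α → List (List Bool)} {w : α → List Bool}
    (hS : Primrec S) (hw : Primrec w) : Primrec (fun a => AB (mem (S a)) (w a)) := by
  refine (prim_mem (prim_accL hS (Primrec.succ.comp (Primrec.list_length.comp hw))) hw).of_eq
    fun a => mem_accL_eq _ _ _ (by omega)

theorem prim_simAB {α : Type} [Primcodable α] {z x : α → List Bool} {k s : α → ℕ}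
    {S : α → List (List Bool)} (hz : Primrec z) (hk : Primrec k) (hs : Primrec s)
    (hS : Primrec S) (hx : Primrec x) :
    Primrec (fun a => sim (z a) (k a) (s a) (AB (mem (S a))) (x a)) := by
  refine (prim_sim hz hk hs (prim_accL hS (Primrec.succ.comp hs)) hx).of_eq fun a => ?_
  exact sim_accL _ _ _ _ _

end Pool.Agent.H60NL
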