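import Pool.Agent.H593R3.FBC.Lad
import Pool.Agent.H620R2.Gauge.A1
import Pool.Agent.H639R2.NTP.PB

set_option autoImplicit false

/-!
# Clocked simulation of polynomial-time oracle algorithms
-/

namespace Pool.Agent.H60NL

open Pool.Agent.NPC Pool.Agent.H593R3.FBC Pool.Agent.H620R2.Gauge

/-- One round of the algorithm number `z, k` on input `x`, after the answers `a`. -/
def st (z : List Bool) (k : ℕ) (O : List Bool → Bool) (x a : List Bool) : List Bool :=
  if (FU z k (pairBits x a)).head? = some false then
    a ++ [O (FU z k (pairBits x a)).tail] else a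

/-- Long questions are answered `false`. -/
def clip (s : ℕ) (O : List Bool → Bool) (q : List Bool) : Bool :=
  if q.length ≤ s then O q else false

/-- Does the algorithm number `z, k` accept `x` after `s` rounds, with questions of length at most
`s`? -/
def sim (z : List Bool) (k s : ℕ) (O : List Bool → Bool) (x : List Bool) : Bool :=
  decide (FU z k (pairBits x ((st z k (clip s O) x)^[s] [])) = [true, true])

/-- the answer depends on at most `s` values of the oracle, at strings of length at most `s` -/
theorem sim_local (z : List Bool) (k s : ℕ) (O : List Bool → Bool) (x : List Bool) :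
    ∃ R : Finset (List Bool), R.card ≤ s ∧ (∀ q ∈ R, q.length ≤ s) ∧
      ∀ O' : List Bool → Bool, (∀ q ∈ R, O' q = O q) → sim z k s O' x = sim z k s O x := by
  classical
  have key : ∀ i : ℕ, ∃ R : Finset (List Bool), R.card ≤ i ∧ (∀ q ∈ R, q.length ≤ s) ∧
      ∀ O' : List Bool → Bool, (∀ q ∈ R, O' q = O q) →
        (st z k (clip s O') x)^[i] [] = (st z k (clip s O) x)^[i] [] := by
    intro i
    induction i with
    | zero => exact ⟨∅, by simp, by simp, fun _ _ => rfl⟩
    | succ i ih =>
      obtain ⟨R, h1, h2, h3⟩ := ih
      obtain ⟨a, ha⟩ : ∃ a, a = (st z k (clip s O) x)^[i] [] := ⟨_, rfl⟩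
      obtain ⟨q, hq⟩ : ∃ q, q = (FU z k (pairBits x a)).tail := ⟨_, rfl⟩
      by_cases hl : q.length ≤ s
      · refine ⟨insert q R, (Finset.card_insert_le _ _).trans (by omega), ?_, ?_⟩
        · intro r hr
          rcases Finset.mem_insert.1 hr with rfl | hr
          · exact hl
          · exact h2 r hr
        · intro O' hO'
          rw [Function.iterate_succ_apply', Function.iterate_succ_apply',
            h3 O' fun r hr => hO' r (Finset.mem_insert_of_mem hr), ← ha]
          unfold st clip
          rw [← hq, if_pos hl, if_pos hl, hO' q (Finset.mem_insert_self _ _)]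
      · refine ⟨R, by omega, h2, fun O' hO' => ?_⟩
        rw [Function.iterate_succ_apply', Function.iterate_succ_apply', h3 O' hO', ← ha]
        unfold st clip
        rw [← hq, if_neg hl, if_neg hl]
  obtain ⟨R, h1, h2, h3⟩ := key s
  refine ⟨R, h1, h2, fun O' hO' => ?_⟩
  unfold sim
  rw [h3 O' hO']

/-- every polynomial-time oracle algorithm is simulated -/
theorem sim_alg (M : Alg) : ∃ (z : List Bool) (k m : ℕ), ∀ (A : List Bool → Bool)
    (x v : List Bool) (s : ℕ), M.out A x = some v → x.length ^ m + m ≤ s →
      sim z k s A x = decide (v = [true]) := by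
  obtain ⟨z, k, hz⟩ := exists_FU M.poly
  obtain ⟨b, hb⟩ := M.next_length
  obtain ⟨m, hm⟩ := Pool.Agent.H639R2.NTP.exists_pow_bound (M.p + b)
  have hD : ∀ x a, FU z k (pairBits x a) = M.D (pairBits x a) := by
    intro x a
    refine hz k _ le_rfl ?_
    unfold pairBits
    simp
  refine ⟨z, k, m, fun A x v s hv hs => ?_⟩
  have hs1 : M.p.eval x.length + b.eval x.length ≤ s := by
    have := hm x.length
    rw [Polynomial.eval_add] at this
    omega
  have key : ∀ (n : ℕ) (a : List Bool), a.length + n ≤ M.p.eval x.length →
      M.run A x n a = some v → ∃ a' : List Bool,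
        (∀ s', n ≤ s' → (st z k (clip s A) x)^[s'] a = a') ∧
        (M.D (pairBits x a') = true :: v ∨ (M.D (pairBits x a') = [] ∧ v = [])) := by
    intro n
    induction n with
    | zero =>
      intro a _ h
      simp [Alg.run] at h
    | succ n ih =>
      intro a ha h
      have hl := hb x a (by omega)
      rcases hq : M.D (pairBits x a) with _ | ⟨c, q⟩
      · simp only [Alg.run, hq, Option.some.injEq] at h
        refine ⟨a, ?_, Or.inr ⟨hq, h.symm⟩⟩
        intro s' _
        refine Function.iterate_fixed ?_ s'
        unfold st
        rw [hD, hq]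
        simp
      · cases c with
        | true =>
          simp only [Alg.run, hq, Option.some.injEq] at h
          subst h
          refine ⟨a, ?_, Or.inl hq⟩
          intro s' _
          refine Function.iterate_fixed ?_ s'
          unfold st
          rw [hD, hq]
          simp
        | false =>
          simp only [Alg.run, hq] at h
          obtain ⟨a', h1, h2⟩ := ih (a ++ [A q]) (by
            rw [List.length_append, List.length_singleton]; omega) h
          refine ⟨a', fun s' hs' => ?_, h2⟩
          obtain ⟨s'', rfl⟩ : ∃ s'', s' = s'' + 1 := ⟨s' - 1, by omega⟩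
          rw [Function.iterate_succ_apply]
          have h3 : st z k (clip s A) x a = a ++ [A q] := by
            unfold st clip
            rw [hD, hq]
            rw [hq, List.length_cons] at hl
            simp only [List.head?_cons, if_true, List.tail_cons]
            rw [if_pos (by omega)]
          rw [h3]
          exact h1 s'' (by omega)
  obtain ⟨a', h1, h2⟩ := key _ [] (by simp) hv
  unfold sim
  rw [h1 s (by omega), hD]
  rcases h2 with h2 | ⟨h2, rfl⟩
  · rw [h2]
    simp
  · rw [h2]
    simp

end Pool.Agent.H60NL
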